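import Pool.Agent.Lib.MP_69d199_co.Core

/-!
# The sharp bound: common definitions
-/

set_option autoImplicit false

namespace Pool.Agent.Lib.MP_69d199_co

/-- a model of `H` together with a dominating vertex in the graph `Q` on the integer points,
inside the box `[0, n)²` -/
def HasModel {V : Type} (H : SimpleGraph V) (Q : SimpleGraph (ℤ × ℤ)) (n : ℕ) : Prop :=
  ∃ (Z : Set (ℤ × ℤ)) (X : V → Set (ℤ × ℤ)),
    (∀ z ∈ Z, InR n z) ∧ (∀ v, ∀ z ∈ X v, InR n z) ∧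
    Conn Q Z ∧ (∀ v, Conn Q (X v)) ∧
    (∀ u v, u ≠ v → Disjoint (X u) (X v)) ∧ (∀ v, Disjoint (X v) Z) ∧
    (∀ u v, H.Adj u v → ∃ x ∈ X u, ∃ y ∈ X v, Q.Adj x y) ∧
    ∀ v, ∃ x ∈ X v, ∃ y ∈ Z, Q.Adj x y

/-- `Q` contains the grid inside the box -/
def GridIn (Q : SimpleGraph (ℤ × ℤ)) (n : ℕ) : Prop :=
  ∀ z z', InR n z → InR n z' → zgrid.Adj z z' → Q.Adj z z'

/-- pairwise disjoint connected sets `P p` (the lines) in the strip between the heights `yB` and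
`yT`, the line `P p` running from `(col p, yB)` to `(col p, yT)` -/
structure Lines (L : ℕ) (yB yT : ℤ) where
  /-- the abscissas of the ends -/
  col : Fin L → ℤ
  /-- the lines -/
  P : Fin L → Set (ℤ × ℤ)
  hcol : StrictMono col
  conn : ∀ p, Conn zgrid (P p)
  bot : ∀ p, (col p, yB) ∈ P p
  top : ∀ p, (col p, yT) ∈ P p
  range : ∀ p, ∀ z ∈ P p, yB ≤ z.2 ∧ z.2 ≤ yT
  disj : ∀ p q, p ≠ q → Disjoint (P p) (P q)

end Pool.Agent.Lib.MP_69d199_co
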