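import Pool.Agent.Lib.MP_69d199_co.Sharp.Defs

/-!
# Bundles of parallel vertical tracks with nested detours
-/

set_option autoImplicit false

namespace Pool.Agent.Lib.MP_69d199_co

/-- A bundle of `T` vertical tracks `x = β, …, β + T - 1` between the heights `yB` and `yT`, with
`m` gadgets. The tracks `τ > σ g` avoid the gadget `g` by a detour: the track is left at height
`l g τ`, followed horizontally to the abscissa `h g τ`, vertically to the height `r g τ` and back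
to the track. A tentacle of the track `σ g` runs at height `u g` to the abscissa `v g`. -/
structure Bundle (m : ℕ) where
  yB : ℤ
  yT : ℤ
  β : ℤ
  Θ : ℤ
  T : ℕ
  A : Fin m → ℤ
  B : Fin m → ℤ
  σ : Fin m → ℕ
  l : Fin m → ℕ → ℤ
  r : Fin m → ℕ → ℤ
  h : Fin m → ℕ → ℤ
  u : Fin m → ℤ
  v : Fin m → ℤ
  hyy : yB < yT
  hΘ : β + T ≤ Θ + 1
  hA : ∀ g, yB < A g
  hB : ∀ g, B g < yT
  hAB : ∀ g g', g ≠ g' → B g < A g' ∨ B g' < A g
  hl : ∀ g τ, σ g < τ → τ < T → A g ≤ l g τ ∧ r g τ ≤ B g ∧ β + T ≤ h g τ ∧ h g τ ≤ Θ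
  hm : ∀ g τ τ', σ g < τ → τ < τ' → τ' < T → l g τ' < l g τ ∧ r g τ < r g τ' ∧ h g τ < h g τ'
  hσ : ∀ g, σ g < T
  huv : ∀ g, A g ≤ u g ∧ u g ≤ B g ∧ β + T ≤ v g ∧ v g ≤ Θ
  hu : ∀ g τ, σ g < τ → τ < T → l g τ < u g ∧ u g < r g τ ∧ v g < h g τ

namespace Bundle

variable {m : ℕ} (b : Bundle m)

/-- the part of the track `τ` on its vertical line -/
def Base (τ : ℕ) : Set (ℤ × ℤ) :=
  {z | z.1 = b.β + τ ∧ b.yB ≤ z.2 ∧ z.2 ≤ b.yT ∧ ∀ g, b.σ g < τ → z.2 ≤ b.l g τ ∨ b.r g τ ≤ z.2}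

/-- the detour of the track `τ` at the gadget `g` -/
def Hat (g : Fin m) (τ : ℕ) : Set (ℤ × ℤ) :=
  {z | b.σ g < τ ∧ (((z.2 = b.l g τ ∨ z.2 = b.r g τ) ∧ b.β + τ ≤ z.1 ∧ z.1 ≤ b.h g τ) ∨
    (z.1 = b.h g τ ∧ b.l g τ ≤ z.2 ∧ z.2 ≤ b.r g τ))}

/-- the track `τ` -/
def Tr (τ : ℕ) : Set (ℤ × ℤ) := b.Base τ ∪ {z | ∃ g, z ∈ b.Hat g τ}

/-- the tentacle of the gadget `g` -/
def Ten (g : Fin m) : Set (ℤ × ℤ) :=
  {z | z.2 = b.u g ∧ b.β + b.σ g ≤ z.1 ∧ z.1 ≤ b.v g}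

lemma lr {g : Fin m} {τ : ℕ} (h1 : b.σ g < τ) (h2 : τ < b.T) : b.l g τ < b.r g τ := by
  obtain ⟨h3, h4, -⟩ := b.hu g τ h1 h2
  exact h3.trans h4

lemma base_of {g : Fin m} {τ : ℕ} (h2 : τ < b.T) {y : ℤ}
    (hy : b.A g ≤ y ∧ y ≤ b.B g) (hg : b.σ g < τ → y ≤ b.l g τ ∨ b.r g τ ≤ y) :
    (b.β + τ, y) ∈ b.Base τ := by
  have h3 := b.hA g
  have h4 := b.hB g
  refine ⟨rfl, by simp only; omega, by simp only; omega, ?_⟩
  intro g' hg'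
  by_cases e : g' = g
  · subst e; exact hg hg'
  · obtain ⟨h5, h6, -⟩ := b.hl g' τ hg' h2
    simp only
    rcases b.hAB g g' (Ne.symm e) with h | h
    · left; omega
    · right; omega

lemma bot_mem {τ : ℕ} (h2 : τ < b.T) : (b.β + τ, b.yB) ∈ b.Base τ := by
  refine ⟨rfl, le_rfl, b.hyy.le, fun g hg => ?_⟩
  left
  obtain ⟨h5, -, -⟩ := b.hl g τ hg h2
  have := b.hA g
  simp only
  omega

lemma top_mem {τ : ℕ} (h2 : τ < b.T) : (b.β + τ, b.yT) ∈ b.Base τ := by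
  refine ⟨rfl, b.hyy.le, le_rfl, fun g hg => ?_⟩
  right
  obtain ⟨-, h5, -⟩ := b.hl g τ hg h2
  have := b.hB g
  simp only
  omega

lemma hat_l {g : Fin m} {τ : ℕ} (h1 : b.σ g < τ) (h2 : τ < b.T) :
    (b.β + τ, b.l g τ) ∈ b.Base τ := by
  obtain ⟨h5, h6, h7, h8⟩ := b.hl g τ h1 h2
  have := b.lr h1 h2
  exact b.base_of h2 (g := g) ⟨h5, by omega⟩ (fun _ => Or.inl le_rfl)

lemma hat_join_l {g : Fin m} {τ : ℕ} (h1 : b.σ g < τ) (h2 : τ < b.T) {z : ℤ × ℤ}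
    (hz : z ∈ b.Hat g τ) : Join zgrid (b.Tr τ) z (b.β + τ, b.l g τ) := by
  obtain ⟨h5, h6, h7, h8⟩ := b.hl g τ h1 h2
  have hlr := b.lr h1 h2
  have sub : b.Hat g τ ⊆ b.Tr τ := fun x hx => Or.inr ⟨g, hx⟩
  have hτ : b.β + (τ : ℤ) ≤ b.h g τ := by
    have : (τ : ℤ) < b.T := by exact_mod_cast h2
    omega
  -- along the lower horizontal
  have a1 : ∀ x, b.β + τ ≤ x → x ≤ b.h g τ →
      Join zgrid (b.Tr τ) (b.β + τ, b.l g τ) (x, b.l g τ) := by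
    intro x hx1 hx2
    apply join_horiz _ _ _ hx1
    intro x' h1' h2'
    exact sub ⟨h1, Or.inl ⟨Or.inl rfl, h1', h2'.trans hx2⟩⟩
  have a2 : ∀ y, b.l g τ ≤ y → y ≤ b.r g τ →
      Join zgrid (b.Tr τ) (b.h g τ, b.l g τ) (b.h g τ, y) := by
    intro y hy1 hy2
    apply join_vert
    intro y' hy'
    rw [Set.uIcc_of_le hy1] at hy'
    exact sub ⟨h1, Or.inr ⟨rfl, hy'.1, hy'.2.trans hy2⟩⟩
  have a3 : ∀ x, b.β + τ ≤ x → x ≤ b.h g τ →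
      Join zgrid (b.Tr τ) (x, b.r g τ) (b.h g τ, b.r g τ) := by
    intro x hx1 hx2
    apply join_horiz _ _ _ hx2
    intro x' h1' h2'
    exact sub ⟨h1, Or.inl ⟨Or.inr rfl, hx1.trans h1', h2'⟩⟩
  obtain ⟨-, (⟨h9 | h9, h10, h11⟩ | ⟨h9, h10, h11⟩)⟩ := hz
  · have e : z = (z.1, b.l g τ) := Prod.ext rfl h9
    rw [e]
    exact (a1 _ h10 h11).symm
  · have e : z = (z.1, b.r g τ) := Prod.ext rfl h9
    rw [e]
    exact ((a3 _ h10 h11).trans (a2 _ hlr.le le_rfl).symm).trans (a1 _ hτ le_rfl).symm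
  · have e : z = (b.h g τ, z.2) := Prod.ext h9 rfl
    rw [e]
    exact (a2 _ h10 h11).symm.trans (a1 _ hτ le_rfl).symm

lemma base_join {τ : ℕ} (h2 : τ < b.T) : ∀ (k : ℕ) (y : ℤ), (y - b.yB).toNat ≤ k →
    (b.β + τ, y) ∈ b.Base τ → Join zgrid (b.Tr τ) (b.β + τ, y) (b.β + τ, b.yB) := by
  intro k
  induction k with
  | zero =>
    intro y hk hy
    have h3 : b.yB ≤ y := hy.2.1
    have : y = b.yB := by omega
    rw [this]; exact Join.refl _ _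
  | succ k ih =>
    intro y hk hy
    have h3 : b.yB ≤ y := hy.2.1
    rcases h3.eq_or_lt with h3 | h3
    · rw [← h3]; exact Join.refl _ _
    by_cases hmem : (b.β + (τ : ℤ), y - 1) ∈ b.Base τ
    · have h4 := ih (y - 1) (by omega) hmem
      refine Join.trans (Join.single ?_ (Or.inl hy) (Or.inl hmem)) h4
      have := zgrid_adj_v (b.β + τ) (y - 1)
      rw [show y - 1 + 1 = y by ring] at this
      exact this.symm
    · -- some gadget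
      have : ∃ g, b.σ g < τ ∧ ¬ (y - 1 ≤ b.l g τ ∨ b.r g τ ≤ y - 1) := by
        by_contra hcon
        apply hmem
        refine ⟨rfl, by simp only; omega, ?_, ?_⟩
        · have : y ≤ b.yT := hy.2.2.1
          simp only; omega
        · intro g hg
          by_contra h5
          exact hcon ⟨g, hg, h5⟩
      obtain ⟨g, hg, h5⟩ := this
      push Not at h5
      have h6 : y ≤ b.l g τ ∨ b.r g τ ≤ y := hy.2.2.2 g hg
      have h7 : y = b.r g τ := by omega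
      have hat : ((b.β + τ, b.r g τ) : ℤ × ℤ) ∈ b.Hat g τ := by
        refine ⟨hg, Or.inl ⟨Or.inr rfl, le_rfl, ?_⟩⟩
        obtain ⟨-, -, h8, -⟩ := b.hl g τ hg h2
        have : (τ : ℤ) < b.T := by exact_mod_cast h2
        simp only; omega
      rw [h7]
      have hlr := b.lr hg h2
      obtain ⟨h8, -⟩ := b.hl g τ hg h2
      have := b.hA g
      exact (b.hat_join_l hg h2 hat).trans (ih _ (by omega) (b.hat_l hg h2))

lemma tr_join {τ : ℕ} (h2 : τ < b.T) {z : ℤ × ℤ} (hz : z ∈ b.Tr τ) :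
    Join zgrid (b.Tr τ) z (b.β + τ, b.yB) := by
  rcases hz with hz | ⟨g, hz⟩
  · have e : z = (b.β + τ, z.2) := Prod.ext hz.1 rfl
    rw [e] at hz ⊢
    exact b.base_join h2 _ _ le_rfl hz
  · exact (b.hat_join_l hz.1 h2 hz).trans (b.base_join h2 _ _ le_rfl (b.hat_l hz.1 h2))

lemma tr_conn {τ : ℕ} (h2 : τ < b.T) : Conn zgrid (b.Tr τ) :=
  conn_of_base _ (Or.inl (b.bot_mem h2)) (fun _ ha => b.tr_join h2 ha)

lemma hat_range {g : Fin m} {τ : ℕ} (h2 : τ < b.T) {z : ℤ × ℤ} (hz : z ∈ b.Hat g τ) :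
    b.A g ≤ z.2 ∧ z.2 ≤ b.B g ∧ b.β + τ ≤ z.1 ∧ z.1 ≤ b.Θ := by
  obtain ⟨h1, hz⟩ := hz
  obtain ⟨h5, h6, h7, h8⟩ := b.hl g τ h1 h2
  have hlr := b.lr h1 h2
  have : (τ : ℤ) < b.T := by exact_mod_cast h2
  rcases hz with ⟨h9 | h9, h10, h11⟩ | ⟨h9, h10, h11⟩ <;> refine ⟨?_, ?_, ?_, ?_⟩ <;> omega

lemma tr_range {τ : ℕ} (h2 : τ < b.T) {z : ℤ × ℤ} (hz : z ∈ b.Tr τ) :
    b.yB ≤ z.2 ∧ z.2 ≤ b.yT ∧ b.β + τ ≤ z.1 ∧ z.1 ≤ b.Θ := by
  rcases hz with hz | ⟨g, hz⟩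
  · have := b.hΘ
    have h3 : (τ : ℤ) < b.T := by exact_mod_cast h2
    exact ⟨hz.2.1, hz.2.2.1, hz.1.ge, by rw [hz.1]; omega⟩
  · obtain ⟨h3, h4, h5, h6⟩ := b.hat_range h2 hz
    have := b.hA g
    have := b.hB g
    exact ⟨by omega, by omega, h5, h6⟩

lemma tr_disj_aux {τ τ' : ℕ} (h : τ < τ') (h2 : τ' < b.T) {z : ℤ × ℤ} (hz : z ∈ b.Tr τ)
    (hz' : z ∈ b.Tr τ') : False := by
  have hc : (τ : ℤ) < τ' := by exact_mod_cast h
  have hc' : (τ' : ℤ) < b.T := by exact_mod_cast h2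
  rcases hz with hz | ⟨g, hz⟩
  · rcases hz' with hz' | ⟨g', hz'⟩
    · have a1 := hz.1
      have a2 := hz'.1
      omega
    · have a1 := hz.1
      obtain ⟨-, -, h5, -⟩ := b.hat_range h2 hz'
      omega
  · obtain ⟨b1, b2, b3, b4⟩ := b.hat_range (h.trans h2) hz
    obtain ⟨hg, hz⟩ := hz
    obtain ⟨m1, m2, m3⟩ := b.hm g τ τ' hg h h2
    have hlr := b.lr hg (h.trans h2)
    rcases hz' with hz' | ⟨g', hz'⟩
    · have a1 := hz'.1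
      have a2 := hz'.2.2.2 g (hg.trans h)
      obtain ⟨h5, h6, h7, h8⟩ := b.hl g τ hg (h.trans h2)
      rcases hz with ⟨h9 | h9, h10, h11⟩ | ⟨h9, h10, h11⟩ <;> omega
    · obtain ⟨c1, c2, c3, c4⟩ := b.hat_range h2 hz'
      by_cases e : g = g'
      · subst e
        obtain ⟨-, hz'⟩ := hz'
        rcases hz with ⟨h9 | h9, h10, h11⟩ | ⟨h9, h10, h11⟩ <;>
        rcases hz' with ⟨k9 | k9, k10, k11⟩ | ⟨k9, k10, k11⟩ <;> omega
      · rcases b.hAB g g' e with h' | h' <;> omega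

lemma tr_disj {τ τ' : ℕ} (h : τ ≠ τ') (h1 : τ < b.T) (h2 : τ' < b.T) :
    Disjoint (b.Tr τ) (b.Tr τ') := by
  rw [Set.disjoint_left]
  intro z hz hz'
  rcases lt_or_gt_of_ne h with h | h
  · exact b.tr_disj_aux h h2 hz hz'
  · exact b.tr_disj_aux h h1 hz' hz

/-- a horizontal segment at the gadget `g` starting outside the vertical lines up to `τ₀` -/
lemma seg_disj {g : Fin m} {τ : ℕ} (h2 : τ < b.T) {z : ℤ × ℤ} (hzA : b.A g ≤ z.2 ∧ z.2 ≤ b.B g)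
    (h3 : b.σ g < τ → b.l g τ < z.2 ∧ z.2 < b.r g τ ∧ z.1 < b.h g τ)
    (h4 : τ ≤ b.σ g → b.β + τ < z.1) : z ∉ b.Tr τ := by
  rintro (hz | ⟨g', hz⟩)
  · by_cases h5 : b.σ g < τ
    · obtain ⟨a1, a2, a3⟩ := h3 h5
      have := hz.2.2.2 g h5
      omega
    · have := h4 (not_lt.1 h5)
      have := hz.1
      omega
  · obtain ⟨b1, b2, b3, b4⟩ := b.hat_range h2 hz
    by_cases e : g = g'
    · subst e
      obtain ⟨hg, hz⟩ := hz
      obtain ⟨a1, a2, a3⟩ := h3 hg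
      rcases hz with ⟨h9 | h9, h10, h11⟩ | ⟨h9, h10, h11⟩ <;> omega
    · rcases b.hAB g g' e with h' | h' <;> omega

lemma ten_disj {g : Fin m} {τ : ℕ} (h : τ ≠ b.σ g) (h2 : τ < b.T) {z : ℤ × ℤ}
    (hz : z ∈ b.Ten g) : z ∉ b.Tr τ := by
  obtain ⟨h3, h4, h5⟩ := hz
  obtain ⟨h6, h7, h8, h9⟩ := b.huv g
  refine b.seg_disj h2 (g := g) (by omega) ?_ ?_
  · intro hg
    obtain ⟨a1, a2, a3⟩ := b.hu g τ hg h2
    omega
  · intro hg
    have : (τ : ℤ) < b.σ g := by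
      have : τ < b.σ g := lt_of_le_of_ne hg h
      exact_mod_cast this
    omega

lemma ten_base (g : Fin m) : (b.β + b.σ g, b.u g) ∈ b.Base (b.σ g) := by
  obtain ⟨h6, h7, h8, h9⟩ := b.huv g
  exact b.base_of (b.hσ g) (g := g) ⟨h6, h7⟩ (fun h => absurd h (lt_irrefl _))

lemma ten_join (g : Fin m) {z : ℤ × ℤ} (hz : z ∈ b.Ten g) :
    Join zgrid (b.Ten g) z (b.β + b.σ g, b.u g) := by
  obtain ⟨h3, h4, h5⟩ := hz
  have e : z = (z.1, b.u g) := Prod.ext rfl h3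
  rw [e]
  refine (join_horiz _ _ _ h4 ?_).symm
  intro x h6 h7
  exact ⟨rfl, h6, h7.trans h5⟩

lemma ten_range (g : Fin m) {z : ℤ × ℤ} (hz : z ∈ b.Ten g) :
    b.yB < z.2 ∧ z.2 < b.yT ∧ b.β ≤ z.1 ∧ z.1 ≤ b.Θ := by
  obtain ⟨h3, h4, h5⟩ := hz
  obtain ⟨h6, h7, h8, h9⟩ := b.huv g
  have := b.hA g
  have := b.hB g
  refine ⟨?_, ?_, ?_, ?_⟩ <;> omega

end Bundle

end Pool.Agent.Lib.MP_69d199_co
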