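import Pool.Agent.Lib.MP_69d199_co.Sharp.Defs

/-!
# Margins: lines plus arms in the two margins give a model of `H`
-/

set_option autoImplicit false

namespace Pool.Agent.Lib.MP_69d199_co

variable {V : Type} {H : SimpleGraph V} {L : ℕ} {yB yT : ℤ}

/-- the rows of the upper margin -/
def upRow (y : ℤ) (k : ℕ) : ℤ := y + k

/-- the rows of the lower margin -/
def downRow (y : ℤ) (k : ℕ) : ℤ := y - k

lemma upRow_zero (y : ℤ) : upRow y 0 = y := by simp [upRow]

lemma downRow_zero (y : ℤ) : downRow y 0 = y := by simp [downRow]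

lemma upRow_mono (y : ℤ) : StrictMono (upRow y) := by
  intro a b h
  unfold upRow
  omega

lemma downRow_anti (y : ℤ) : StrictAnti (downRow y) := by
  intro a b h
  unfold downRow
  omega

/-- the piece of the model at the position `p` -/
def LPiece (S : ArcSystem V H L) (F : Lines L yB yT) (p : Fin L) : Set (ℤ × ℤ) :=
  F.P p ∪ (Arm S.U (upRow yT) F.col p ∪ Arm (Low S) (downRow yB) F.col p)

lemma lpiece_join_line (S : ArcSystem V H L) (F : Lines L yB yT) {p : Fin L} {z : ℤ × ℤ}
    (hz : z ∈ LPiece S F p) : ∃ c ∈ F.P p, Join zgrid (LPiece S F p) z c := by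
  rcases hz with hz | hz | hz
  · exact ⟨z, hz, Join.refl _ _⟩
  · refine ⟨(F.col p, yT), F.top p, ?_⟩
    have := (arm_join_base (nc_U S) hz).mono (T' := LPiece S F p)
      (fun x hx => Or.inr (Or.inl hx))
    rwa [upRow_zero] at this
  · refine ⟨(F.col p, yB), F.bot p, ?_⟩
    have := (arm_join_base (nc_Low S) hz).mono (T' := LPiece S F p)
      (fun x hx => Or.inr (Or.inr hx))
    rwa [downRow_zero] at this

lemma lpiece_conn (S : ArcSystem V H L) (F : Lines L yB yT) (p : Fin L) :
    Conn zgrid (LPiece S F p) := by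
  refine conn_of_base (F.col p, yT) (Or.inl (F.top p)) ?_
  intro z hz
  obtain ⟨c, hc, h⟩ := lpiece_join_line S F hz
  exact h.trans (((F.conn p).2 c hc _ (F.top p)).mono (fun x hx => Or.inl hx))

lemma arm_line_disjoint (F : Lines L yB yT) (S : ArcSystem V H L) {p q : Fin L}
    (hpq : p ≠ q) {z : ℤ × ℤ} (h1 : z ∈ F.P p)
    (h2 : z ∈ Arm S.U (upRow yT) F.col q ∪ Arm (Low S) (downRow yB) F.col q) : False := by
  obtain ⟨r1, r2⟩ := F.range p z h1
  rcases h2 with h2 | h2
  · have a1 := arm_up (upRow_mono yT) h2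
    rw [upRow_zero] at a1
    have a2 : z.2 = yT := le_antisymm r2 a1
    have a3 := arm_base_row (nc_U S) (rows_of_strictMono (upRow_mono yT)) h2
      (by rw [upRow_zero]; exact a2)
    have hz : z = (F.col q, yT) := Prod.ext a3 a2
    rw [hz] at h1
    exact Set.disjoint_left.1 (F.disj p q hpq) h1 (F.top q)
  · have a1 := arm_down (downRow_anti yB) h2
    rw [downRow_zero] at a1
    have a2 : z.2 = yB := le_antisymm a1 r1
    have a3 := arm_base_row (nc_Low S) (rows_of_strictAnti (downRow_anti yB)) h2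
      (by rw [downRow_zero]; exact a2)
    have hz : z = (F.col q, yB) := Prod.ext a3 a2
    rw [hz] at h1
    exact Set.disjoint_left.1 (F.disj p q hpq) h1 (F.bot q)

lemma lpiece_disjoint (S : ArcSystem V H L) (hyy : yB < yT) (F : Lines L yB yT) {p q : Fin L}
    (hpq : p ≠ q) : Disjoint (LPiece S F p) (LPiece S F q) := by
  rw [Set.disjoint_left]
  rintro z (h1 | h1) (h2 | h2)
  · exact Set.disjoint_left.1 (F.disj p q hpq) h1 h2
  · exact arm_line_disjoint F S hpq h1 h2
  · exact arm_line_disjoint F S hpq.symm h2 h1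
  · have up : ∀ {r : Fin L}, z ∈ Arm S.U (upRow yT) F.col r → yT ≤ z.2 := by
      intro r h
      have := arm_up (upRow_mono yT) h
      rwa [upRow_zero] at this
    have down : ∀ {r : Fin L}, z ∈ Arm (Low S) (downRow yB) F.col r → z.2 ≤ yB := by
      intro r h
      have := arm_down (downRow_anti yB) h
      rwa [downRow_zero] at this
    rcases h1 with h1 | h1 <;> rcases h2 with h2 | h2
    · exact (Set.disjoint_left.1 (arm_disjoint (nc_U S) (rows_of_strictMono (upRow_mono yT))
        F.hcol hpq)) h1 h2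
    · have := up h1
      have := down h2
      omega
    · have := up h2
      have := down h1
      omega
    · exact (Set.disjoint_left.1 (arm_disjoint (nc_Low S) (rows_of_strictAnti (downRow_anti yB))
        F.hcol hpq)) h1 h2

/-- the set of grid points of the vertex `v` -/
def LCls (S : ArcSystem V H L) (F : Lines L yB yT) (v : V) : Set (ℤ × ℤ) :=
  ⋃ p ∈ {p | S.lab p = v}, LPiece S F p

lemma lcls_sub (S : ArcSystem V H L) (F : Lines L yB yT) {v : V} {p : Fin L}
    (hp : S.lab p = v) : LPiece S F p ⊆ LCls S F v :=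
  Set.subset_biUnion_of_mem (u := LPiece S F) (show p ∈ {p | S.lab p = v} from hp)

lemma lcls_join (S : ArcSystem V H L) (F : Lines L yB yT) (v : V) (n : ℕ) :
    ∀ p q : Fin L, S.lab p = v → S.lab q = v → p < q → q.val - p.val ≤ n →
      Join zgrid (LCls S F v) (F.col p, yB) (F.col q, yB) := by
  induction n with
  | zero =>
    intro p q _ _ h1 h2
    have : p.val < q.val := h1
    omega
  | succ n ih =>
    intro p q hp hq h1 h2
    have hlt : p.val < q.val := h1
    by_cases hex : ∃ c, p < c ∧ c < q ∧ S.lab c = v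
    · obtain ⟨c, c1, c2, c3⟩ := hex
      have d1 : p.val < c.val := c1
      have d2 : c.val < q.val := c2
      exact (ih p c hp c3 c1 (by omega)).trans (ih c q c3 hq c2 (by omega))
    · push Not at hex
      have hlow : Low S p q := ⟨h1, by rw [hp, hq], fun c c1 c2 => by
        rw [hp]; exact hex c c1 c2⟩
      obtain ⟨x, hx, y, hy, hxy⟩ := arm_adj (ρ := downRow yB) (nc_Low S) F.hcol hlow
      have hx' : x ∈ LPiece S F p := Or.inr (Or.inr hx)
      have hy' : y ∈ LPiece S F q := Or.inr (Or.inr hy)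
      have s1 := lcls_sub S F hp
      have s2 := lcls_sub S F hq
      have j1 := ((lpiece_conn S F p).2 _ (Or.inl (F.bot p)) x hx').mono s1
      have j2 := ((lpiece_conn S F q).2 y hy' _ (Or.inl (F.bot q))).mono s2
      exact (j1.trans (Join.single hxy (s1 hx') (s2 hy'))).trans j2

lemma lcls_conn (S : ArcSystem V H L) (F : Lines L yB yT) (v : V) : Conn zgrid (LCls S F v) := by
  obtain ⟨p, hp⟩ := S.surj v
  refine conn_of_base (F.col p, yB) (lcls_sub S F hp (Or.inl (F.bot p))) ?_
  intro z hz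
  simp only [LCls, Set.mem_iUnion] at hz
  obtain ⟨q, hq, hz⟩ := hz
  have hq' : S.lab q = v := hq
  refine (((lpiece_conn S F q).2 z hz _ (Or.inl (F.bot q))).mono (lcls_sub S F hq')).trans ?_
  rcases lt_trichotomy q p with h | h | h
  · exact lcls_join S F v _ q p hq' hp h le_rfl
  · rw [h]; exact Join.refl _ _
  · exact (lcls_join S F v _ p q hp hq' h le_rfl).symm

lemma lcls_disjoint (S : ArcSystem V H L) (hyy : yB < yT) (F : Lines L yB yT) {u v : V}
    (huv : u ≠ v) : Disjoint (LCls S F u) (LCls S F v) := by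
  rw [Set.disjoint_left]
  intro z h1 h2
  simp only [LCls, Set.mem_iUnion] at h1 h2
  obtain ⟨p, hp, h1⟩ := h1
  obtain ⟨q, hq, h2⟩ := h2
  have hp' : S.lab p = u := hp
  have hq' : S.lab q = v := hq
  have hpq : p ≠ q := by
    rintro rfl
    exact huv (hp'.symm.trans hq')
  exact Set.disjoint_left.1 (lpiece_disjoint S hyy F hpq) h1 h2

lemma lcls_adj (S : ArcSystem V H L) (F : Lines L yB yT) {u v : V} (huv : H.Adj u v) :
    ∃ x ∈ LCls S F u, ∃ y ∈ LCls S F v, zgrid.Adj x y := by
  obtain ⟨a, b, hab, h⟩ := S.edge u v huv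
  obtain ⟨x, hx, y, hy, hxy⟩ := arm_adj (ρ := upRow yT) (nc_U S) F.hcol hab
  have hx' : x ∈ LPiece S F a := Or.inr (Or.inl hx)
  have hy' : y ∈ LPiece S F b := Or.inr (Or.inl hy)
  rcases h with ⟨h1, h2⟩ | ⟨h1, h2⟩
  · exact ⟨x, lcls_sub S F h1 hx', y, lcls_sub S F h2 hy', hxy⟩
  · exact ⟨y, lcls_sub S F h2 hy', x, lcls_sub S F h1 hx', hxy.symm⟩

/-- the abscissas and the heights of the points of an arm -/
lemma arm_range {R : Fin L → Fin L → Prop} {ρ : ℕ → ℤ} {col : Fin L → ℤ}
    {p : Fin L} {z : ℤ × ℤ} (hz : z ∈ Arm R ρ col p) :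
    (∃ k < L, z.2 ∈ Set.uIcc (ρ 0) (ρ k)) ∧ ∃ q q', col q ≤ z.1 ∧ z.1 ≤ col q' := by
  rcases hz with ⟨h1, k, hk, hy⟩ | ⟨q, hq, h1, h2, h3⟩
  · have hkL : k < L := by
      have := p.2
      rcases hk with rfl | ⟨q, -, rfl⟩ | ⟨q, -, rfl⟩
      · omega
      · have := q.2; omega
      · omega
    exact ⟨⟨k, hkL, hy⟩, p, p, h1.ge, h1.le⟩
  · have h6 := q.2
    refine ⟨⟨q.val - p.val, by omega, ?_⟩, p, q, h2, h3.le⟩
    rw [h1]
    exact Set.right_mem_uIcc

theorem lines_model (S : ArcSystem V H L) (hyy : yB < yT) (F : Lines L yB yT) :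
    ∃ X : V → Set (ℤ × ℤ), (∀ v, Conn zgrid (X v)) ∧
      (∀ u v, u ≠ v → Disjoint (X u) (X v)) ∧
      (∀ u v, H.Adj u v → ∃ x ∈ X u, ∃ y ∈ X v, zgrid.Adj x y) ∧
      (∀ p, F.P p ⊆ X (S.lab p)) ∧
      ∀ v, ∀ z ∈ X v, (∃ p, z ∈ F.P p) ∨
        (yB - L < z.2 ∧ z.2 < yT + L ∧ (z.2 < yB ∨ yT < z.2) ∧
          ∃ p q, F.col p ≤ z.1 ∧ z.1 ≤ F.col q) := by
  refine ⟨LCls S F, lcls_conn S F, fun u v h => lcls_disjoint S hyy F h,
    fun u v h => lcls_adj S F h, fun p => ?_, ?_⟩
  · exact fun z hz => lcls_sub S F rfl (Or.inl hz)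
  · intro v z hz
    simp only [LCls, Set.mem_iUnion] at hz
    obtain ⟨p, -, hz⟩ := hz
    rcases hz with hz | hz | hz
    · exact Or.inl ⟨p, hz⟩
    · obtain ⟨⟨k, hk, hy⟩, hq⟩ := arm_range hz
      rw [Set.uIcc_of_le ((upRow_mono yT).monotone (Nat.zero_le _)), upRow_zero] at hy
      obtain ⟨y1, y2⟩ := hy
      by_cases h0 : z.2 = yT
      · have a3 := arm_base_row (nc_U S) (rows_of_strictMono (upRow_mono yT)) hz
          (by rw [upRow_zero]; exact h0)
        have hz' : z = (F.col p, yT) := Prod.ext a3 h0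
        exact Or.inl ⟨p, hz' ▸ F.top p⟩
      · right
        unfold upRow at y2
        refine ⟨by omega, by omega, by omega, hq⟩
    · obtain ⟨⟨k, hk, hy⟩, hq⟩ := arm_range hz
      rw [Set.uIcc_of_ge ((downRow_anti yB).antitone (Nat.zero_le _)), downRow_zero] at hy
      obtain ⟨y1, y2⟩ := hy
      by_cases h0 : z.2 = yB
      · have a3 := arm_base_row (nc_Low S) (rows_of_strictAnti (downRow_anti yB)) hz
          (by rw [downRow_zero]; exact h0)
        have hz' : z = (F.col p, yB) := Prod.ext a3 h0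
        exact Or.inl ⟨p, hz' ▸ F.bot p⟩
      · right
        unfold downRow at y1
        refine ⟨by omega, by omega, by omega, hq⟩

end Pool.Agent.Lib.MP_69d199_co
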