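import Mathlib

/-!
# Selection of bundles and blocks
-/

set_option autoImplicit false

namespace Pool.Agent.Lib.MP_69d199_co

/-- many blocks: `q` block columns with at least `m` blocks each -/
theorem select_rich {M q m : ℕ} (U : Finset (Fin M × Fin M)) (hM : 0 < M)
    (hU : q * M + M * m ≤ U.card) :
    ∃ (a : Fin q ↪o Fin M) (F : Fin q → Finset (Fin M)), (∀ j, m ≤ (F j).card) ∧
      ∀ j, ∀ b ∈ F j, (a j, b) ∈ U := by
  classical
  set C : Fin M → Finset (Fin M) := fun a => Finset.univ.filter (fun b => (a, b) ∈ U) with hC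
  have hcard : U.card = ∑ a, (C a).card := by
    have h1 : U.card = ∑ a : Fin M, (U.filter (fun p => p.1 = a)).card :=
      Finset.card_eq_sum_card_fiberwise (fun x _ => Finset.mem_univ _)
    rw [h1]
    refine Finset.sum_congr rfl fun a _ => ?_
    refine Finset.card_bij (fun p _ => p.2) ?_ ?_ ?_
    · rintro ⟨x, y⟩ hp
      rw [Finset.mem_filter] at hp
      obtain ⟨hp1, hp2⟩ := hp
      simp only at hp2
      subst hp2
      simpa [hC] using hp1
    · rintro ⟨x, y⟩ hp ⟨x', y'⟩ hp' h
      rw [Finset.mem_filter] at hp hp'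
      have e1 : x = a := hp.2
      have e2 : x' = a := hp'.2
      have e3 : y = y' := h
      rw [e1, e2, e3]
    · intro b hb
      refine ⟨(a, b), ?_, rfl⟩
      rw [Finset.mem_filter]
      exact ⟨by simpa [hC] using hb, rfl⟩
  set R : Finset (Fin M) := Finset.univ.filter (fun a => m ≤ (C a).card) with hR
  have hRq : q ≤ R.card := by
    by_contra hlt
    push Not at hlt
    have hsplit : ∑ a, (C a).card = ∑ a ∈ R, (C a).card + ∑ a ∈ Rᶜ, (C a).card :=
      (Finset.sum_add_sum_compl R _).symm
    have h1 : ∑ a ∈ R, (C a).card ≤ R.card * M := by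
      have := Finset.sum_le_card_nsmul R (fun a => (C a).card) M (fun a _ => by
        simpa using Finset.card_le_univ (C a))
      simpa using this
    have h2 : ∑ a ∈ Rᶜ, (C a).card ≤ M * m := by
      have h3 := Finset.sum_le_card_nsmul Rᶜ (fun a => (C a).card) m (fun a ha => by
        have : ¬ m ≤ (C a).card := by
          intro h
          rw [Finset.mem_compl] at ha
          exact ha (by simp [hR, h])
        omega)
      have h4 : (Rᶜ).card ≤ M := by simpa using Finset.card_le_univ Rᶜ
      calc ∑ a ∈ Rᶜ, (C a).card ≤ (Rᶜ).card * m := by simpa using h3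
        _ ≤ M * m := Nat.mul_le_mul_right m h4
    have h5 : R.card * M + M ≤ q * M := by
      have : (R.card + 1) * M ≤ q * M := Nat.mul_le_mul_right M (by omega)
      calc R.card * M + M = (R.card + 1) * M := by ring
        _ ≤ q * M := this
    omega
  obtain ⟨R', hR', hcR'⟩ := Finset.exists_subset_card_eq hRq
  refine ⟨R'.orderEmbOfFin hcR', fun j => C (R'.orderEmbOfFin hcR' j), fun j => ?_, fun j b hb => ?_⟩
  · have : R'.orderEmbOfFin hcR' j ∈ R := hR' (Finset.orderEmbOfFin_mem _ _ _)
    rw [hR, Finset.mem_filter] at this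
    exact this.2
  · simpa [hC] using hb

/-- a quarter of all subsets contain `x` and not `y`. -/
theorem T3_quarter {M : ℕ} (x y : Fin M) (hxy : y ≠ x) :
    (Finset.univ : Finset (Finset (Fin M))).card ≤
      4 * (Finset.univ.filter (fun T : Finset (Fin M) => x ∈ T ∧ y ∉ T)).card := by
  classical
  set f : Finset (Fin M) → Finset (Fin M) := fun T => insert x (T.erase y) with hf
  have himg : (Finset.univ : Finset (Finset (Fin M))).image f ⊆
      Finset.univ.filter (fun T : Finset (Fin M) => x ∈ T ∧ y ∉ T) := by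
    intro T hT
    obtain ⟨T', -, rfl⟩ := Finset.mem_image.1 hT
    simp [hf, hxy]
  have hfib : ∀ T0 ∈ (Finset.univ : Finset (Finset (Fin M))).image f,
      ((Finset.univ : Finset (Finset (Fin M))).filter (fun T => f T = T0)).card ≤ 4 := by
    intro T0 _
    have hsub : (Finset.univ : Finset (Finset (Fin M))).filter (fun T => f T = T0) ⊆
        (Finset.univ : Finset (Bool × Bool)).image (fun p =>
          ((T0.erase x) ∪ (if p.1 then {x} else ∅)) ∪ (if p.2 then {y} else ∅)) := by
      intro T hT
      rw [Finset.mem_filter] at hT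
      rw [Finset.mem_image]
      refine ⟨(decide (x ∈ T), decide (y ∈ T)), Finset.mem_univ _, ?_⟩
      rw [← hT.2]
      ext z
      by_cases hzx : z = x
      · subst hzx
        by_cases hz : z ∈ T
        · simp [hf, hz]
        · by_cases hy : y ∈ T
          · simp [hf, hz, hy, Ne.symm hxy]
          · simp [hf, hz, hy]
      · by_cases hzy : z = y
        · subst hzy
          by_cases hz : z ∈ T
          · simp [hf, hz]
          · by_cases hx : x ∈ T
            · simp [hf, hz, hx]
            · simp [hf, hz, hx]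
        · by_cases hx : x ∈ T <;> by_cases hy : y ∈ T <;> simp [hf, hx, hy, hzx, hzy]
    refine (Finset.card_le_card hsub).trans (Finset.card_image_le.trans ?_)
    simp
  have h1 := Finset.card_le_mul_card_image (f := f) (Finset.univ : Finset (Finset (Fin M))) 4 hfib
  exact h1.trans (Nat.mul_le_mul_left 4 (Finset.card_le_card himg))

/-- max-cut by averaging. -/
theorem T3_cut {M : ℕ} (W : Finset (Fin M × Fin M)) (y : Fin M × Fin M → Fin M)
    (hy : ∀ i ∈ W, y i ≠ i.1) :
    ∃ T : Finset (Fin M), W.card ≤ 4 * (W.filter (fun i => i.1 ∈ T ∧ y i ∉ T)).card := by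
  classical
  by_contra hcon
  push Not at hcon
  have h1 : ∑ T : Finset (Fin M), 4 * (W.filter (fun i => i.1 ∈ T ∧ y i ∉ T)).card <
      ∑ _T : Finset (Fin M), W.card :=
    Finset.sum_lt_sum_of_nonempty ⟨∅, Finset.mem_univ _⟩ (fun T _ => hcon T)
  have h2 : ∑ T : Finset (Fin M), (W.filter (fun i => i.1 ∈ T ∧ y i ∉ T)).card =
      ∑ i ∈ W, (Finset.univ.filter (fun T : Finset (Fin M) => i.1 ∈ T ∧ y i ∉ T)).card := by
    simp only [Finset.card_filter]
    exact Finset.sum_comm
  rw [← Finset.mul_sum, h2, Finset.sum_const, smul_eq_mul] at h1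
  have h3 : ∑ _i ∈ W, (Finset.univ : Finset (Finset (Fin M))).card ≤
      ∑ i ∈ W, 4 * (Finset.univ.filter (fun T : Finset (Fin M) => i.1 ∈ T ∧ y i ∉ T)).card :=
    Finset.sum_le_sum fun i hi => T3_quarter i.1 (y i) (hy i hi)
  rw [Finset.sum_const, smul_eq_mul, ← Finset.mul_sum] at h3
  have h4 : W.card * (Finset.univ : Finset (Finset (Fin M))).card =
      (Finset.univ : Finset (Finset (Fin M))).card * W.card := Nat.mul_comm _ _
  omega

/-- selection for long jumps -/
theorem select_long {M q : ℕ} (hM : 24 * (2 * q + 2) + 1 ≤ M) (U : Finset (Fin M × Fin M))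
    (hU : M * M ≤ 3 * U.card + 1)
    (good : Bool → Fin M × Fin M → Prop) (hgood : ∀ i ∈ U, good true i ∨ good false i)
    (band : Fin M × Fin M → Option (Fin M)) (hband : ∀ i ∈ U, band i ≠ some i.1) :
    ∃ (loc : Bool) (a : Fin q ↪o Fin M) (F : Fin q → Finset (Fin M)),
      (∀ j, q + 2 ≤ (F j).card) ∧
      ∀ j, ∀ b ∈ F j, (a j, b) ∈ U ∧ good loc (a j, b) ∧ ∀ j', band (a j, b) ≠ some (a j') := by
  classical
  -- choice of `loc`
  obtain ⟨loc, hloc⟩ : ∃ loc : Bool, U.card ≤ 2 * (U.filter (fun i => good loc i)).card := by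
    by_contra hcon
    push Not at hcon
    have h1 := hcon true
    have h2 := hcon false
    have h3 : U.card ≤ (U.filter (fun i => good true i)).card +
        (U.filter (fun i => good false i)).card := by
      rw [← Finset.card_union_add_card_inter]
      refine (Finset.card_le_card ?_).trans (Nat.le_add_right _ _)
      intro i hi
      rw [Finset.mem_union, Finset.mem_filter, Finset.mem_filter]
      rcases hgood i hi with h | h
      · exact Or.inl ⟨hi, h⟩
      · exact Or.inr ⟨hi, h⟩
    omega
  set W := U.filter (fun i => good loc i) with hW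
  -- the forbidden element of `i`
  have hex : ∀ i : Fin M × Fin M, ∃ y : Fin M, (i ∈ U → y ≠ i.1) ∧ ∀ z, band i = some z → z = y := by
    intro i
    rcases hb : band i with _ | z
    · obtain ⟨y, hy⟩ : ∃ y : Fin M, y ≠ i.1 := by
        have : Nontrivial (Fin M) := Fin.nontrivial_iff_two_le.2 (by omega)
        exact exists_ne i.1
      exact ⟨y, fun _ => hy, fun z hz => by simp at hz⟩
    · refine ⟨z, fun hi h => hband i hi ?_, fun z' hz' => ?_⟩
      · rw [hb, h]
      · simpa using hz'.symm
  choose y hy1 hy2 using hex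
  obtain ⟨T, hT⟩ := T3_cut W y (fun i hi => hy1 i (Finset.mem_filter.1 hi).1)
  set V := W.filter (fun i => i.1 ∈ T ∧ y i ∉ T) with hV
  have hcardV : q * M + M * (q + 2) ≤ V.card := by
    have h1 : M * M ≤ 24 * V.card + 1 := by omega
    by_contra hlt
    push Not at hlt
    have h2 : M * M ≤ 24 * (q * M + M * (q + 2)) := by omega
    have h3 : 24 * (q * M + M * (q + 2)) = (24 * (2 * q + 2)) * M := by ring
    have h4 : (24 * (2 * q + 2) + 1) * M ≤ M * M := Nat.mul_le_mul_right M hM
    have h5 : (24 * (2 * q + 2) + 1) * M = (24 * (2 * q + 2)) * M + M := by ring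
    omega
  obtain ⟨a, F, hF1, hF2⟩ := select_rich V (by omega) hcardV
  refine ⟨loc, a, F, hF1, fun j b hb => ?_⟩
  have hmem := hF2 j b hb
  rw [hV, Finset.mem_filter, hW, Finset.mem_filter] at hmem
  refine ⟨hmem.1.1, hmem.1.2, fun j' hj' => ?_⟩
  have h1 : a j' = y (a j, b) := hy2 _ _ hj'
  -- `a j' ∈ T`
  obtain ⟨b', hb'⟩ : (F j').Nonempty := by
    rw [← Finset.card_pos]
    have := hF1 j'
    omega
  have hmem' := hF2 j' b' hb'
  rw [hV, Finset.mem_filter] at hmem'
  exact hmem.2.2 (h1 ▸ hmem'.2.1)

/-- two blocks with the same target come first and last -/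
theorem pick_pair {M q : ℕ} (hq : 1 ≤ q) (F : Finset (Fin M)) (hF : q + 2 ≤ F.card)
    (tgt : Fin M → ℕ) (htgt : ∀ b ∈ F, tgt b ≤ q) :
    ∃ blk : Fin (q + 1) → Fin M, Function.Injective blk ∧ (∀ s, blk s ∈ F) ∧
      tgt (blk 0) = tgt (blk (Fin.last q)) := by
  classical
  obtain ⟨b, hb, b', hb', hne, heq⟩ := Finset.exists_ne_map_eq_of_card_lt_of_maps_to
    (s := F) (t := Finset.range (q + 1)) (f := tgt) (by rw [Finset.card_range]; omega)
    (fun b hb => by
      have := htgt b hb
      simp only [Finset.coe_range, Set.mem_Iio]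
      omega)
  have hsub : ({b, b'} : Finset (Fin M)) ⊆ F := by
    intro z hz
    rw [Finset.mem_insert, Finset.mem_singleton] at hz
    rcases hz with rfl | rfl
    · exact hb
    · exact hb'
  obtain ⟨F', hF1, hF2, hF3⟩ := Finset.exists_subsuperset_card_eq hsub
    (n := q + 1) (by rw [Finset.card_pair hne]; omega) (by omega)
  let e : F' ≃ Fin (q + 1) := Finset.equivFinOfCardEq hF3
  have hbF : b ∈ F' := hF1 (by simp)
  have hbF' : b' ∈ F' := hF1 (by simp)
  set i := e ⟨b, hbF⟩ with hi
  set j := e ⟨b', hbF'⟩ with hj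
  have hij : i ≠ j := by
    intro h
    have := e.injective h
    exact hne (by simpa using congrArg Subtype.val this)
  have h0l : (0 : Fin (q + 1)) ≠ Fin.last q := by
    intro h
    have := congrArg Fin.val h
    simp at this
    omega
  set l := Equiv.swap 0 i (Fin.last q) with hl
  have hli : l ≠ i := by
    intro h
    have h1 : Equiv.swap (0 : Fin (q + 1)) i (Fin.last q) = Equiv.swap 0 i 0 := by
      rw [Equiv.swap_apply_left, ← hl, h]
    exact h0l ((Equiv.swap (0 : Fin (q + 1)) i).injective h1).symm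
  refine ⟨fun s => ((e.symm (Equiv.swap l j (Equiv.swap 0 i s)) : F') : Fin M), ?_, ?_, ?_⟩
  · intro s s' h
    have h1 := e.symm.injective (Subtype.ext h)
    exact (Equiv.swap 0 i).injective ((Equiv.swap l j).injective h1)
  · intro s
    exact hF2 (e.symm _).2
  · have e0 : ((e.symm (Equiv.swap l j (Equiv.swap 0 i 0)) : F') : Fin M) = b := by
      rw [Equiv.swap_apply_left, Equiv.swap_apply_of_ne_of_ne (Ne.symm hli) hij, hi,
        Equiv.symm_apply_apply]
    have e1 : ((e.symm (Equiv.swap l j (Equiv.swap 0 i (Fin.last q))) : F') : Fin M) = b' := by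
      rw [← hl, Equiv.swap_apply_left, hj, Equiv.symm_apply_apply]
    show tgt ((e.symm (Equiv.swap l j (Equiv.swap 0 i 0)) : F') : Fin M) =
      tgt ((e.symm (Equiv.swap l j (Equiv.swap 0 i (Fin.last q))) : F') : Fin M)
    rw [e0, e1]
    exact heq

end Pool.Agent.Lib.MP_69d199_co
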