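import Pool.Agent.Lib.MP_69d199_co.Sharp.Defs

/-!
# Contraction to a graph on the grid points, jumps
-/

set_option autoImplicit false

namespace Pool.Agent.Lib.MP_69d199_co

/-- a family of disjoint connected sets in a connected finite graph extends to a partition into
connected sets -/
lemma exists_partition {W I : Type} [Finite W] [Finite I] (G : SimpleGraph W)
    (hG : ∀ a b : W, G.Reachable a b) (i₀ : I) (B₀ : I → Set W)
    (hB : ∀ i, Conn G (B₀ i)) (hBd : ∀ i j, i ≠ j → Disjoint (B₀ i) (B₀ j)) :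
    ∃ B : I → Set W, (∀ i, B₀ i ⊆ B i) ∧ (∀ i, Conn G (B i)) ∧
      (∀ i j, i ≠ j → Disjoint (B i) (B j)) ∧ ∀ x, ∃ i, x ∈ B i := by
  classical
  obtain ⟨B, hBm⟩ := (Set.toFinite {B : I → Set W | (∀ i, B₀ i ⊆ B i) ∧ (∀ i, Conn G (B i)) ∧
      (∀ i j, i ≠ j → Disjoint (B i) (B j))}).exists_maximal
      ⟨B₀, fun i => subset_rfl, hB, hBd⟩
  obtain ⟨⟨h1, h2, h3⟩, hmax⟩ := hBm
  refine ⟨B, h1, h2, h3, ?_⟩
  by_contra hcon
  push Not at hcon
  obtain ⟨x, hx⟩ := hcon
  obtain ⟨a, ha⟩ := (h2 i₀).1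
  obtain ⟨p⟩ := hG a x
  obtain ⟨d, -, hd1, hd2⟩ := p.exists_boundary_dart {y | ∃ i, y ∈ B i} ⟨i₀, ha⟩
    (by rintro ⟨i, hi⟩; exact hx i hi)
  obtain ⟨i, hi⟩ := hd1
  have hd2' : ∀ j, d.snd ∉ B j := fun j hj => hd2 ⟨j, hj⟩
  have hadj : G.Adj d.fst d.snd := d.adj
  have hconn : Conn G (insert d.snd (B i)) := by
    refine conn_of_base d.fst (Set.mem_insert_of_mem _ hi) ?_
    intro b hb
    rcases Set.mem_insert_iff.1 hb with rfl | hb
    · exact Join.single hadj.symm (Set.mem_insert _ _) (Set.mem_insert_of_mem _ hi)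
    · exact ((h2 i).2 b hb _ hi).mono (Set.subset_insert _ _)
  have hle : B ≤ Function.update B i (insert d.snd (B i)) := by
    intro j
    by_cases hj : j = i
    · subst hj
      rw [Function.update_self]
      exact Set.subset_insert _ _
    · rw [Function.update_of_ne hj]
  have hmem : Function.update B i (insert d.snd (B i)) ∈
      {B : I → Set W | (∀ i, B₀ i ⊆ B i) ∧ (∀ i, Conn G (B i)) ∧
        (∀ i j, i ≠ j → Disjoint (B i) (B j))} := by
    refine ⟨fun j => (h1 j).trans (hle j), fun j => ?_, fun j k hjk => ?_⟩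
    · by_cases hj : j = i
      · subst hj
        rw [Function.update_self]
        exact hconn
      · rw [Function.update_of_ne hj]
        exact h2 j
    · by_cases hj : j = i
      · subst hj
        have hk : k ≠ j := fun h => hjk h.symm
        rw [Function.update_self, Function.update_of_ne hk, Set.disjoint_insert_left]
        exact ⟨hd2' k, h3 j k hjk⟩
      · rw [Function.update_of_ne hj]
        by_cases hk : k = i
        · subst hk
          rw [Function.update_self, Set.disjoint_insert_right]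
          exact ⟨hd2' j, h3 j k hjk⟩
        · rw [Function.update_of_ne hk]
          exact h3 j k hjk
  have := hmax hmem hle i
  rw [Function.update_self] at this
  exact hd2' i (this (Set.mem_insert _ _))

/-- If the grid is a minor of the graph `G` of radius at most `r`, then some graph `Q` on the
grid points containing the grid and of radius at most `r` is a minor of `G`. -/
theorem exists_contraction {W : Type} [Fintype W] (G : SimpleGraph W) (r n : ℕ) (hn : 0 < n)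
    (hG : RadiusAtMost G r) (hgrid : IsMinor (grid n) G) :
    ∃ Q : SimpleGraph (ℤ × ℤ), GridIn Q n ∧ (∀ z z', Q.Adj z z' → InR n z ∧ InR n z') ∧
      (∃ z₀, InR n z₀ ∧ ∀ z, InR n z → ∃ w : Q.Walk z z₀, w.length ≤ r) ∧
      ∀ (V : Type) (A : SimpleGraph V) (z : V),
        HasModel (A.induce {v : V | v ≠ z}) Q n → IsMinor A G := by
  classical
  obtain ⟨α, hα⟩ := hG
  obtain ⟨B₀, hBc, hBd, hBa⟩ := hgrid
  have hreach : ∀ a b : W, G.Reachable a b := by
    intro a b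
    obtain ⟨p, -⟩ := hα a
    obtain ⟨q, -⟩ := hα b
    exact ⟨p.reverse.append q⟩
  obtain ⟨B, hsub, hconn, hdisj, hcov⟩ := exists_partition G hreach (⟨0, hn⟩, ⟨0, hn⟩) B₀
    (fun z => conn_of_connected (hBc z)) hBd
  -- properties of `BZ`
  have zconn : ∀ z, InR n z → Conn G (BZ B z) := by
    intro z hz
    obtain ⟨i, j, h1, h2⟩ := hz.idx
    rw [bz_eq B h1 h2]
    exact hconn _
  have zdisj : ∀ z z' w, w ∈ BZ B z → w ∈ BZ B z' → z = z' := by
    rintro z z' w ⟨i, j, h1, h2, hw⟩ ⟨i', j', h1', h2', hw'⟩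
    by_contra hne
    have : (i, j) ≠ (i', j') := by
      intro h
      rw [Prod.mk.injEq] at h
      apply hne
      ext
      · rw [← h1, ← h1', h.1]
      · rw [← h2, ← h2', h.2]
    exact Set.disjoint_left.1 (hdisj _ _ this) hw hw'
  have zcov : ∀ x, ∃ z, x ∈ BZ B z := by
    intro x
    obtain ⟨⟨i, j⟩, hx⟩ := hcov x
    exact ⟨(((i : ℕ) : ℤ), ((j : ℕ) : ℤ)), i, j, rfl, rfl, hx⟩
  let Q : SimpleGraph (ℤ × ℤ) :=
    { Adj := fun z z' => z ≠ z' ∧ ∃ x ∈ BZ B z, ∃ y ∈ BZ B z', G.Adj x y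
      symm := ⟨fun z z' h => by
        obtain ⟨hne, x, hx, y, hy, hxy⟩ := h
        exact ⟨hne.symm, y, hy, x, hx, hxy.symm⟩⟩
      loopless := ⟨fun z h => h.1 rfl⟩ }
  have hQ : ∀ z z', Q.Adj z z' ↔ (z ≠ z' ∧ ∃ x ∈ BZ B z, ∃ y ∈ BZ B z', G.Adj x y) :=
    fun z z' => Iff.rfl
  have hproj : ∀ (a b : W) (p : G.Walk a b) (z z' : ℤ × ℤ), a ∈ BZ B z → b ∈ BZ B z' →
      ∃ q : Q.Walk z z', q.length ≤ p.length := by
    intro a b p
    induction p with
    | nil =>
      intro z z' ha hb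
      have := zdisj _ _ _ ha hb
      subst this
      exact ⟨SimpleGraph.Walk.nil, by simp⟩
    | cons h p ih =>
      rename_i u v w'
      intro z z' ha hb
      obtain ⟨z'', hz''⟩ := zcov v
      obtain ⟨q, hq⟩ := ih z'' z' hz'' hb
      by_cases hzz : z = z''
      · subst hzz
        exact ⟨q, by rw [SimpleGraph.Walk.length_cons]; omega⟩
      · refine ⟨SimpleGraph.Walk.cons ((hQ _ _).2 ⟨hzz, _, ha, _, hz'', h⟩) q, ?_⟩
        rw [SimpleGraph.Walk.length_cons, SimpleGraph.Walk.length_cons]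
        omega
  refine ⟨Q, ?_, ?_, ?_, ?_⟩
  · intro z z' hz hz' hadj
    refine (hQ _ _).2 ⟨hadj.ne, ?_⟩
    obtain ⟨i, j, h1, h2⟩ := hz.idx
    obtain ⟨i', j', h1', h2'⟩ := hz'.idx
    rw [bz_eq B h1 h2, bz_eq B h1' h2']
    obtain ⟨x, hx, y, hy, hxy⟩ := hBa (i, j) (i', j') (by
      have h3 : |z.1 - z'.1| + |z.2 - z'.2| = 1 := hadj
      show |((i : ℕ) : ℤ) - ((i' : ℕ) : ℤ)| + |((j : ℕ) : ℤ) - ((j' : ℕ) : ℤ)| = 1
      rw [h1, h2, h1', h2']
      exact h3)
    exact ⟨x, hsub _ hx, y, hsub _ hy, hxy⟩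
  · rintro z z' ⟨-, x, hx, y, hy, -⟩
    exact ⟨inR_of_mem hx, inR_of_mem hy⟩
  · obtain ⟨z₀, hz₀⟩ := zcov α
    refine ⟨z₀, inR_of_mem hz₀, fun z hz => ?_⟩
    obtain ⟨x, hx⟩ := (zconn z hz).1
    obtain ⟨p, hp⟩ := hα x
    obtain ⟨q, hq⟩ := hproj x α p.reverse z z₀ hx hz₀
    rw [SimpleGraph.Walk.length_reverse] at hq
    exact ⟨q, hq.trans hp⟩
  · rintro V A z ⟨Z, X, hZr, hXr, hZ, hX, hXd, hXZ, hXa, hXZa⟩
    have tr : ∀ S : Set (ℤ × ℤ), (∀ y ∈ S, InR n y) → Conn Q S → Conn G (⋃ y ∈ S, BZ B y) := by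
      intro S hS hc
      refine Conn.transfer hc (fun y hy => zconn y (hS y hy)) ?_
      intro y _ y' _ hyy
      exact hyy.2
    have dj : ∀ S T : Set (ℤ × ℤ), Disjoint S T →
        Disjoint (⋃ y ∈ S, BZ B y) (⋃ y ∈ T, BZ B y) := by
      intro S T hST
      rw [Set.disjoint_left]
      intro x hx hx'
      simp only [Set.mem_iUnion] at hx hx'
      obtain ⟨y, hy, hx⟩ := hx
      obtain ⟨y', hy', hx'⟩ := hx'
      have := zdisj y y' x hx hx'
      subst this
      exact Set.disjoint_left.1 hST hy hy'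
    have ad : ∀ S T : Set (ℤ × ℤ), (∃ x ∈ S, ∃ y ∈ T, Q.Adj x y) →
        ∃ x ∈ (⋃ y ∈ S, BZ B y), ∃ y ∈ (⋃ y ∈ T, BZ B y), G.Adj x y := by
      rintro S T ⟨x, hx, y, hy, -, a, ha, b, hb, hab⟩
      exact ⟨a, Set.mem_biUnion hx ha, b, Set.mem_biUnion hy hb, hab⟩
    refine ⟨fun v => if h : v = z then ⋃ y ∈ Z, BZ B y else ⋃ y ∈ X ⟨v, h⟩, BZ B y, ?_, ?_, ?_⟩
    · intro v
      show (G.induce (if h : v = z then ⋃ y ∈ Z, BZ B y else
        ⋃ y ∈ X ⟨v, h⟩, BZ B y)).Connected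
      by_cases h : v = z
      · rw [dif_pos h]; exact (tr Z hZr hZ).connected
      · rw [dif_neg h]; exact (tr _ (hXr _) (hX _)).connected
    · intro u v huv
      by_cases hu : u = z
      · have hv : ¬ v = z := fun h => huv (hu.trans h.symm)
        simp only [hu, dif_pos, hv, dif_neg, not_false_iff]
        exact dj _ _ (hXZ _).symm
      · by_cases hv : v = z
        · simp only [hu, dif_neg, not_false_iff, hv, dif_pos]
          exact dj _ _ (hXZ _)
        · simp only [hu, hv, dif_neg, not_false_iff]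
          exact dj _ _ (hXd _ _ (fun h => huv (congrArg Subtype.val h)))
    · intro u v huv
      by_cases hu : u = z
      · have hv : ¬ v = z := fun h => huv.ne (hu.trans h.symm)
        simp only [hu, dif_pos, hv, dif_neg, not_false_iff]
        obtain ⟨x, hx, y, hy, hxy⟩ := ad _ _ (hXZa ⟨v, hv⟩)
        exact ⟨y, hy, x, hx, hxy.symm⟩
      · by_cases hv : v = z
        · simp only [hu, dif_neg, not_false_iff, hv, dif_pos]
          exact ad _ _ (hXZa ⟨u, hu⟩)
        · simp only [hu, hv, dif_neg, not_false_iff]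
          exact ad _ _ (hXa ⟨u, hu⟩ ⟨v, hv⟩ huv)

/-- auxiliary form of `exists_jump`, by induction on the walk -/
lemma exists_jump_aux (Q : SimpleGraph (ℤ × ℤ)) (c a z₀ : ℤ × ℤ) (w : Q.Walk a z₀) :
    ∀ (s r : ℕ), |a.1 - c.1| ≤ s → |a.2 - c.2| ≤ s → s + w.length ≤ r →
      ((r : ℤ) < |c.1 - z₀.1| ∨ (r : ℤ) < |c.2 - z₀.2|) →
    ∃ x y, Q.Adj x y ∧ |x.1 - c.1| < r ∧ |x.2 - c.2| < r ∧
      (2 ≤ |x.1 - y.1| ∨ 2 ≤ |x.2 - y.2|) := by
  induction w with
  | nil =>
    intro s r h1 h2 h3 h4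
    exfalso
    rw [SimpleGraph.Walk.length_nil] at h3
    have h5 : (s : ℤ) ≤ r := by exact_mod_cast h3
    rcases h4 with h4 | h4
    · rw [abs_sub_comm] at h4
      linarith
    · rw [abs_sub_comm] at h4
      linarith
  | cons h p ih =>
    rename_i u v w'
    intro s r h1 h2 h3 h4
    rw [SimpleGraph.Walk.length_cons] at h3
    have h5 : (s : ℤ) < r := by
      have : s < r := by omega
      exact_mod_cast this
    by_cases hj : 2 ≤ |u.1 - v.1| ∨ 2 ≤ |u.2 - v.2|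
    · exact ⟨u, v, h, by linarith, by linarith, hj⟩
    · push Not at hj
      refine ih (s + 1) r ?_ ?_ (by omega) h4
      · have h6 : |v.1 - c.1| ≤ |v.1 - u.1| + |u.1 - c.1| := abs_sub_le _ _ _
        rw [abs_sub_comm v.1 u.1] at h6
        push_cast
        linarith [Int.lt_add_one_iff.1 (show |u.1 - v.1| < 1 + 1 by linarith [hj.1])]
      · have h6 : |v.2 - c.2| ≤ |v.2 - u.2| + |u.2 - c.2| := abs_sub_le _ _ _
        rw [abs_sub_comm v.2 u.2] at h6
        push_cast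
        linarith [Int.lt_add_one_iff.1 (show |u.2 - v.2| < 1 + 1 by linarith [hj.2])]

/-- the first long step of a walk leaving a square -/
theorem exists_jump (Q : SimpleGraph (ℤ × ℤ)) (r : ℕ) (c z₀ : ℤ × ℤ) (w : Q.Walk c z₀)
    (hw : w.length ≤ r) (hfar : (r : ℤ) < |c.1 - z₀.1| ∨ (r : ℤ) < |c.2 - z₀.2|) :
    ∃ x y, Q.Adj x y ∧ |x.1 - c.1| < r ∧ |x.2 - c.2| < r ∧
      (2 ≤ |x.1 - y.1| ∨ 2 ≤ |x.2 - y.2|) :=
  exists_jump_aux Q c c z₀ w 0 r (by simp) (by simp) (by omega) hfar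

end Pool.Agent.Lib.MP_69d199_co
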