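import Pool.Agent.Lib.MP_69d199_co.Sharp.T1
import Pool.Agent.Lib.MP_69d199_co.Sharp.T2

/-!
# Arrays of bundles: the model of `H` and the set `Z`
-/

set_option autoImplicit false

namespace Pool.Agent.Lib.MP_69d199_co

/-- `q` bundles of `2q + 1` tracks between the heights `yB` and `yT`, from left to right. -/
structure Arr (q m L n : ℕ) where
  b : Fin q → Bundle m
  yB : ℤ
  yT : ℤ
  xL : ℤ
  xR : ℤ
  hq : 1 ≤ q
  hL : L ≤ q * q
  hyB : ∀ j, (b j).yB = yB
  hyT : ∀ j, (b j).yT = yT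
  hyy : yB < yT
  hT : ∀ j, (b j).T = 2 * q + 1
  hsep : ∀ j j', j < j' → (b j).Θ + 1 < (b j').β
  hxL : ∀ j, xL ≤ (b j).β
  hxR : ∀ j, (b j).Θ ≤ xR
  box1 : 0 < xL
  box2 : xR + 1 < n
  box3 : 0 < yB - L
  box4 : yT + L + 1 < n

/-- the outer region, in terms of its parameters -/
def Oset (n L : ℕ) (yB yT xL xR : ℤ) : Set (ℤ × ℤ) :=
  {z | InR n z ∧ (z.2 < yB - L ∨ yT + L < z.2 ∨ z.1 < xL ∨ xR < z.1)}

namespace Arr

variable {q m L n : ℕ} (a : Arr q m L n)

/-- the outer region -/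
def O : Set (ℤ × ℤ) := Oset n L a.yB a.yT a.xL a.xR

/-- the gaps between the bundles, and the bottom rows to the right of the tracks -/
def Gap : Set (ℤ × ℤ) :=
  {z | a.xL ≤ z.1 ∧ z.1 ≤ a.xR ∧ a.yB ≤ z.2 ∧ z.2 ≤ a.yT ∧
    ∀ j, z.1 < (a.b j).β ∨ (a.b j).Θ < z.1 ∨ (z.2 = a.yB ∧ (a.b j).β + 2 * q < z.1)}

/-- the even tracks -/
def Ev : Set (ℤ × ℤ) := {z | ∃ j, ∃ s : ℕ, s ≤ q ∧ z ∈ (a.b j).Tr (2 * s)}

/-- the branch set of the dominating vertex -/
def Z (E : Set (ℤ × ℤ)) : Set (ℤ × ℤ) := a.O ∪ a.Gap ∪ a.Ev ∪ E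

lemma hΘ' (j : Fin q) : (a.b j).β + 2 * q ≤ (a.b j).Θ := by
  have h1 := (a.b j).hΘ
  rw [a.hT j] at h1
  push_cast at h1
  omega

lemma tr_rg (j : Fin q) {τ : ℕ} (hτ : τ ≤ 2 * q) {z : ℤ × ℤ} (hz : z ∈ (a.b j).Tr τ) :
    a.yB ≤ z.2 ∧ z.2 ≤ a.yT ∧ (a.b j).β + τ ≤ z.1 ∧ z.1 ≤ (a.b j).Θ := by
  have := (a.b j).tr_range (by rw [a.hT j]; omega) hz
  rwa [a.hyB j, a.hyT j] at this

lemma tr_bot (j : Fin q) {τ : ℕ} (hτ : τ ≤ 2 * q) {z : ℤ × ℤ} (hz : z ∈ (a.b j).Tr τ)
    (h0 : z.2 = a.yB) : z.1 = (a.b j).β + τ := by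
  rcases hz with hz | ⟨g, hz⟩
  · exact hz.1
  · exfalso
    obtain ⟨h1, -⟩ := (a.b j).hat_range (by rw [a.hT j]; omega) hz
    have h2 := (a.b j).hA g
    rw [a.hyB j] at h2
    omega

lemma tr_sep {j j' : Fin q} (hj : j ≠ j') {τ τ' : ℕ} (hτ : τ ≤ 2 * q) (hτ' : τ' ≤ 2 * q)
    {z : ℤ × ℤ} (hz : z ∈ (a.b j).Tr τ) (hz' : z ∈ (a.b j').Tr τ') : False := by
  obtain ⟨-, -, h1, h2⟩ := a.tr_rg j hτ hz
  obtain ⟨-, -, h3, h4⟩ := a.tr_rg j' hτ' hz'
  rcases lt_or_gt_of_ne hj with h | h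
  · have := a.hsep _ _ h; omega
  · have := a.hsep _ _ h; omega

/-- the bundle of a position -/
def jj (p : Fin L) : Fin q :=
  ⟨p.val / q, Nat.div_lt_of_lt_mul (lt_of_lt_of_le p.2 a.hL)⟩

include a in
lemma ss_lt (p : Fin L) : p.val % q < q := Nat.mod_lt _ a.hq

/-- the lines of the array -/
def lines : Lines L a.yB a.yT where
  col p := (a.b (a.jj p)).β + (2 * (p.val % q) + 1 : ℕ)
  P p := (a.b (a.jj p)).Tr (2 * (p.val % q) + 1)
  hcol := by
    intro p p' hpp
    have h0 : p.val < p'.val := hpp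
    have h1 := a.ss_lt p
    have h2 := a.ss_lt p'
    have h3 := Nat.div_add_mod p.val q
    have h4 := Nat.div_add_mod p'.val q
    by_cases hj : p.val / q = p'.val / q
    · have e : a.jj p = a.jj p' := Fin.ext hj
      have : p.val % q < p'.val % q := by
        rw [hj] at h3; omega
      simp only [e]
      push_cast
      omega
    · have hlt : p.val / q < p'.val / q :=
        lt_of_le_of_ne (Nat.div_le_div_right h0.le) hj
      have h5 := a.hsep (a.jj p) (a.jj p') hlt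
      have h6 := a.hΘ' (a.jj p)
      simp only
      push_cast
      omega
  conn p := (a.b (a.jj p)).tr_conn (by rw [a.hT]; have := a.ss_lt p; omega)
  bot p := by
    have := (a.b (a.jj p)).bot_mem (τ := 2 * (p.val % q) + 1)
      (by rw [a.hT]; have := a.ss_lt p; omega)
    rw [a.hyB] at this
    exact Or.inl this
  top p := by
    have := (a.b (a.jj p)).top_mem (τ := 2 * (p.val % q) + 1)
      (by rw [a.hT]; have := a.ss_lt p; omega)
    rw [a.hyT] at this
    exact Or.inl this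
  range p z hz := by
    have := a.tr_rg (a.jj p) (by have := a.ss_lt p; omega) hz
    exact ⟨this.1, this.2.1⟩
  disj p p' hpp := by
    have h1 := a.ss_lt p
    have h2 := a.ss_lt p'
    by_cases hj : p.val / q = p'.val / q
    · have e : a.jj p = a.jj p' := Fin.ext hj
      rw [e]
      apply (a.b (a.jj p')).tr_disj
      · intro h
        apply hpp
        apply Fin.ext
        have h3 := Nat.div_add_mod p.val q
        have h4 := Nat.div_add_mod p'.val q
        rw [hj] at h3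
        omega
      · rw [a.hT]; omega
      · rw [a.hT]; omega
    · rw [Set.disjoint_left]
      intro z hz hz'
      exact a.tr_sep (j := a.jj p) (j' := a.jj p') (fun h => hj (congrArg Fin.val h))
        (by omega) (by omega) hz hz'

lemma join_lift {Q : SimpleGraph (ℤ × ℤ)} (hQ : GridIn Q n) {T : Set (ℤ × ℤ)}
    (hT : ∀ z ∈ T, InR n z) {x y : ℤ × ℤ} (h : Join zgrid T x y) : Join Q T x y := by
  induction h with
  | refl => exact Join.refl _ _
  | tail _ h ih => exact ih.trans (Join.single (hQ _ _ (hT _ h.2.1) (hT _ h.2.2) h.1) h.2.1 h.2.2)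

lemma inR_strip {z : ℤ × ℤ} (h1 : a.xL - 1 ≤ z.1) (h2 : z.1 ≤ a.xR + 1) (h3 : a.yB - L ≤ z.2)
    (h4 : z.2 ≤ a.yT + L) : InR n z := by
  have := a.box1
  have := a.box2
  have := a.box3
  have := a.box4
  refine ⟨?_, ?_, ?_, ?_⟩ <;> omega

theorem model {V : Type} {H : SimpleGraph V} (S : ArcSystem V H L) (Q : SimpleGraph (ℤ × ℤ))
    (hQ : GridIn Q n) (E : Set (ℤ × ℤ)) (hE1 : ∀ z ∈ E, a.yB ≤ z.2 ∧ z.2 ≤ a.yT ∧ InR n z)
    (hE2 : ∀ z ∈ E, ∀ j, ∀ s < q, z ∉ (a.b j).Tr (2 * s + 1)) (hZ : Conn Q (a.Z E)) :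
    HasModel H Q n := by
  obtain ⟨X, hXc, hXd, hXa, hXP, hXr⟩ := lines_model S a.hyy a.lines
  have hP : ∀ p, ∀ z ∈ a.lines.P p, ∃ j, ∃ s < q, z ∈ (a.b j).Tr (2 * s + 1) := by
    intro p z hz
    exact ⟨a.jj p, p.val % q, a.ss_lt p, hz⟩
  have hcolr : ∀ p, a.xL ≤ a.lines.col p ∧ a.lines.col p ≤ a.xR := by
    intro p
    have h1 := a.hxL (a.jj p)
    have h2 := a.hxR (a.jj p)
    have h3 := a.hΘ' (a.jj p)
    have h4 := a.ss_lt p
    show a.xL ≤ (a.b (a.jj p)).β + (2 * (p.val % q) + 1 : ℕ) ∧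
      (a.b (a.jj p)).β + (2 * (p.val % q) + 1 : ℕ) ≤ a.xR
    push_cast
    omega
  have hXin : ∀ v, ∀ z ∈ X v, InR n z := by
    intro v z hz
    rcases hXr v z hz with ⟨p, hp⟩ | ⟨h1, h2, h3, p, p', h4, h5⟩
    · obtain ⟨j, s, hs, hz'⟩ := hP p z hp
      obtain ⟨h1, h2, h3, h4⟩ := a.tr_rg j (by omega) hz'
      have := a.hxL j
      have := a.hxR j
      exact a.inR_strip (by push_cast at h3; omega) (by omega) (by omega) (by omega)
    · have := (hcolr p).1
      have := (hcolr p').2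
      exact a.inR_strip (by omega) (by omega) (by omega) (by omega)
  have hZin : ∀ z ∈ a.Z E, InR n z := by
    rintro z (((hz | hz) | hz) | hz)
    · exact hz.1
    · obtain ⟨h1, h2, h3, h4, -⟩ := hz
      exact a.inR_strip (by omega) (by omega) (by omega) (by omega)
    · obtain ⟨j, s, hs, hz'⟩ := hz
      obtain ⟨h1, h2, h3, h4⟩ := a.tr_rg j (by omega) hz'
      have := a.hxL j
      have := a.hxR j
      exact a.inR_strip (by push_cast at h3; omega) (by omega) (by omega) (by omega)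
    · exact (hE1 z hz).2.2
  refine ⟨a.Z E, X, hZin, hXin, hZ, ?_, hXd, ?_, ?_, ?_⟩
  · intro v
    exact ⟨(hXc v).1, fun x hx y hy => join_lift hQ (hXin v) ((hXc v).2 x hx y hy)⟩
  · intro v
    rw [Set.disjoint_left]
    intro z hz hz'
    rcases hXr v z hz with ⟨p, hp⟩ | ⟨h1, h2, h3, p, p', h4, h5⟩
    · obtain ⟨j, s, hs, hzt⟩ := hP p z hp
      obtain ⟨h1, h2, h3, h4⟩ := a.tr_rg j (by omega) hzt
      have h5 := a.hxL j
      have h6 := a.hxR j
      push_cast at h3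
      rcases hz' with ((hz' | hz') | hz') | hz'
      · rcases hz'.2 with h | h | h | h <;> omega
      · rcases hz'.2.2.2.2 j with h | h | ⟨h, h'⟩
        · omega
        · omega
        · have := a.tr_bot j (by omega) hzt h
          push_cast at this
          omega
      · obtain ⟨j', s', hs', hz''⟩ := hz'
        by_cases e : j = j'
        · subst e
          exact Set.disjoint_left.1 ((a.b j).tr_disj (τ := 2 * s + 1) (τ' := 2 * s') (by omega)
            (by rw [a.hT]; omega) (by rw [a.hT]; omega)) hzt hz''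
        · exact a.tr_sep e (by omega) (by omega) hzt hz''
      · exact hE2 z hz' j s hs hzt
    · have h6 := (hcolr p).1
      have h7 := (hcolr p').2
      rcases hz' with ((hz' | hz') | hz') | hz'
      · rcases hz'.2 with h | h | h | h <;> omega
      · obtain ⟨-, -, g1, g2, -⟩ := hz'
        omega
      · obtain ⟨j', s', hs', hz''⟩ := hz'
        obtain ⟨g1, g2, -⟩ := a.tr_rg j' (by omega) hz''
        omega
      · obtain ⟨g1, g2, -⟩ := hE1 z hz'
        omega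
  · intro u v huv
    obtain ⟨x, hx, y, hy, hxy⟩ := hXa u v huv
    exact ⟨x, hx, y, hy, hQ _ _ (hXin u x hx) (hXin v y hy) hxy⟩
  · intro v
    obtain ⟨p, hp⟩ := S.surj v
    have h1 : (a.lines.col p, a.yB) ∈ X v := by
      rw [← hp]; exact hXP p (a.lines.bot p)
    have h2 : ((a.b (a.jj p)).β + (2 * (p.val % q) : ℕ), a.yB) ∈ a.Z E := by
      refine Or.inl (Or.inr ⟨a.jj p, p.val % q, (a.ss_lt p).le, ?_⟩)
      have := (a.b (a.jj p)).bot_mem (τ := 2 * (p.val % q))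
        (by rw [a.hT]; have := a.ss_lt p; omega)
      rw [a.hyB] at this
      exact Or.inl this
    refine ⟨_, h1, _, h2, (hQ _ _ (hZin _ h2) (hXin v _ h1) ?_).symm⟩
    have h3 := zgrid_adj_h ((a.b (a.jj p)).β + (2 * (p.val % q) : ℕ)) a.yB
    have e : a.lines.col p = (a.b (a.jj p)).β + (2 * (p.val % q) : ℕ) + 1 := by
      show (a.b (a.jj p)).β + (2 * (p.val % q) + 1 : ℕ) = _
      push_cast; ring
    rw [e]
    exact h3

end Arr

end Pool.Agent.Lib.MP_69d199_co
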