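import Pool.Agent.Lib.MP_69d199_co.Sharp.T5

/-!
# Connectedness of `Z`
-/

set_option autoImplicit false

namespace Pool.Agent.Lib.MP_69d199_co

open Classical in
/-- the index of the region containing `y`, in terms of the left ends of the bundles -/
noncomputable def tgtN {q : ℕ} (β : Fin q → ℤ) (O : Set (ℤ × ℤ)) (y : ℤ × ℤ) : ℕ :=
  if y ∈ O then 0 else (Finset.univ.filter (fun j => β j ≤ y.1)).card

lemma tgtN_le {q : ℕ} (β : Fin q → ℤ) (O : Set (ℤ × ℤ)) (y : ℤ × ℤ) : tgtN β O y ≤ q := by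
  unfold tgtN
  split_ifs
  · exact Nat.zero_le _
  · refine (Finset.card_le_univ _).trans ?_
    simp

namespace Arr

variable {q m L n : ℕ} (a : Arr q m L n) {Q : SimpleGraph (ℤ × ℤ)} {E : Set (ℤ × ℤ)}

lemma hv (hQ : GridIn Q n) {T : Set (ℤ × ℤ)} (hT : ∀ z ∈ T, InR n z) (c y₁ y₂ : ℤ)
    (h : ∀ y ∈ Set.uIcc y₁ y₂, (c, y) ∈ T) : Join Q T (c, y₁) (c, y₂) :=
  join_lift hQ hT (join_vert c y₁ y₂ h)

lemma hh (hQ : GridIn Q n) {T : Set (ℤ × ℤ)} (hT : ∀ z ∈ T, InR n z) (y x₁ x₂ : ℤ) (h12 : x₁ ≤ x₂)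
    (h : ∀ x, x₁ ≤ x → x ≤ x₂ → (x, y) ∈ T) : Join Q T (x₁, y) (x₂, y) :=
  join_lift hQ hT (join_horiz y x₁ x₂ h12 h)

lemma O_join (hQ : GridIn Q n) {z : ℤ × ℤ} (hz : z ∈ a.O) : Join Q a.O z (0, 0) := by
  have hin : ∀ z ∈ a.O, InR n z := fun z hz => hz.1
  have b1 := a.box1
  have b2 := a.box2
  have b3 := a.box3
  have b4 := a.box4
  obtain ⟨⟨h1, h2, h3, h4⟩, h5⟩ := hz
  have hn : (0 : ℤ) < n := by omega
  -- the column 0
  have c0 : ∀ y : ℤ, 0 ≤ y → y < n → Join Q a.O (0, y) (0, 0) := by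
    intro y hy1 hy2
    apply hv hQ hin
    intro y' hy'
    rw [Set.uIcc_of_ge hy1] at hy'
    exact ⟨⟨le_rfl, hn, hy'.1, lt_of_le_of_lt hy'.2 hy2⟩, Or.inr (Or.inr (Or.inl b1))⟩
  -- the row 0
  have r0 : ∀ x : ℤ, 0 ≤ x → x < n → Join Q a.O (x, 0) (0, 0) := by
    intro x hx1 hx2
    refine (hh hQ hin 0 0 x hx1 ?_).symm
    intro x' hx1' hx2'
    exact ⟨⟨hx1', lt_of_le_of_lt hx2' hx2, le_rfl, hn⟩, Or.inl b3⟩
  have e : z = (z.1, z.2) := rfl
  rcases h5 with h5 | h5 | h5 | h5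
  · rw [e]
    refine Join.trans (hh hQ hin z.2 0 z.1 h1 ?_).symm (c0 z.2 h3 h4)
    intro x' hx1' hx2'
    exact ⟨⟨hx1', lt_of_le_of_lt hx2' h2, h3, h4⟩, Or.inl h5⟩
  · rw [e]
    refine Join.trans (hh hQ hin z.2 0 z.1 h1 ?_).symm (c0 z.2 h3 h4)
    intro x' hx1' hx2'
    exact ⟨⟨hx1', lt_of_le_of_lt hx2' h2, h3, h4⟩, Or.inr (Or.inl h5)⟩
  · rw [e]
    refine Join.trans (hv hQ hin z.1 z.2 0 ?_) (r0 z.1 h1 h2)
    intro y' hy'
    rw [Set.uIcc_of_ge h3] at hy'
    exact ⟨⟨h1, h2, hy'.1, lt_of_le_of_lt hy'.2 h4⟩, Or.inr (Or.inr (Or.inl h5))⟩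
  · rw [e]
    refine Join.trans (hv hQ hin z.1 z.2 0 ?_) (r0 z.1 h1 h2)
    intro y' hy'
    rw [Set.uIcc_of_ge h3] at hy'
    exact ⟨⟨h1, h2, hy'.1, lt_of_le_of_lt hy'.2 h4⟩, Or.inr (Or.inr (Or.inr h5))⟩

lemma Z_in (hE1 : ∀ z ∈ E, a.yB ≤ z.2 ∧ z.2 ≤ a.yT ∧ InR n z) : ∀ z ∈ a.Z E, InR n z := by
  rintro z (((hz | hz) | hz) | hz)
  · exact hz.1
  · obtain ⟨h1, h2, h3, h4, -⟩ := hz
    exact a.inR_strip (by omega) (by omega) (by omega) (by omega)
  · obtain ⟨j, s, hs, hz'⟩ := hz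
    obtain ⟨h1, h2, h3, h4⟩ := a.tr_rg j (by omega) hz'
    have := a.hxL j
    have := a.hxR j
    exact a.inR_strip (by push_cast at h3; omega) (by omega) (by omega) (by omega)
  · exact (hE1 z hz).2.2

lemma O_sub : a.O ⊆ a.Z E := fun _ h => Or.inl (Or.inl (Or.inl h))
lemma Gap_sub : a.Gap ⊆ a.Z E := fun _ h => Or.inl (Or.inl (Or.inr h))
lemma Ev_sub : a.Ev ⊆ a.Z E := fun _ h => Or.inl (Or.inr h)
lemma E_sub : E ⊆ a.Z E := fun _ h => Or.inr h

/-- a point of the strip outside all bundles -/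
def Free (z : ℤ × ℤ) : Prop :=
  a.xL ≤ z.1 ∧ z.1 ≤ a.xR ∧ a.yB ≤ z.2 ∧ z.2 ≤ a.yT ∧
    ∀ j, z.1 < (a.b j).β ∨ (a.b j).Θ < z.1

lemma Free.gap {z : ℤ × ℤ} (h : a.Free z) : z ∈ a.Gap := by
  obtain ⟨h1, h2, h3, h4, h5⟩ := h
  refine ⟨h1, h2, h3, h4, fun j => ?_⟩
  rcases h5 j with h | h
  · exact Or.inl h
  · exact Or.inr (Or.inl h)

lemma gap_down (hQ : GridIn Q n) (hE1 : ∀ z ∈ E, a.yB ≤ z.2 ∧ z.2 ≤ a.yT ∧ InR n z)
    {z : ℤ × ℤ} (hz : z ∈ a.Gap) : (z.1, a.yB) ∈ a.Gap ∧ Join Q (a.Z E) z (z.1, a.yB) := by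
  obtain ⟨h1, h2, h3, h4, h5⟩ := hz
  by_cases h0 : z.2 = a.yB
  · have e : z = (z.1, a.yB) := Prod.ext rfl h0
    have hz' : z ∈ a.Gap := ⟨h1, h2, h3, h4, h5⟩
    rw [← e]
    exact ⟨hz', Join.refl _ _⟩
  · have hfree : ∀ y, a.yB ≤ y → y ≤ a.yT → (z.1, y) ∈ a.Gap := by
      intro y hy1 hy2
      refine ⟨h1, h2, hy1, hy2, fun j => ?_⟩
      rcases h5 j with h | h | h
      · exact Or.inl h
      · exact Or.inr (Or.inl h)
      · exact absurd h.1 h0
    refine ⟨hfree _ le_rfl a.hyy.le, ?_⟩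
    have e : z = (z.1, z.2) := rfl
    rw [e]
    apply hv hQ (a.Z_in hE1)
    intro y hy
    rw [Set.uIcc_of_ge h3] at hy
    exact a.Gap_sub (hfree y hy.1 (hy.2.trans h4))

lemma tr0_bot (j : Fin q) {s : ℕ} (hs : s ≤ q) : ((a.b j).β + (2 * s : ℕ), a.yB) ∈ a.Ev := by
  refine ⟨j, s, hs, ?_⟩
  have := (a.b j).bot_mem (τ := 2 * s) (by rw [a.hT]; omega)
  rw [a.hyB] at this
  exact Or.inl this

lemma left_gap (j : Fin q) : ((a.b j).β - 1, a.yB) ∈ a.O ∪ a.Gap := by
  have h1 := a.hxL j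
  have h2 := a.hxR j
  have h3 := a.hΘ' j
  rcases h1.eq_or_lt with h | h
  · left
    refine ⟨a.inR_strip (by simp only; omega) (by simp only; omega) (by simp only; omega)
      (by have := a.hyy; simp only; omega), ?_⟩
    right; right; left
    simp only; omega
  · right
    refine ⟨by simp only; omega, by simp only; omega, le_rfl, a.hyy.le, ?_⟩
    intro j'
    rcases lt_trichotomy j j' with h' | h' | h'
    · left
      have := a.hsep _ _ h'
      simp only; omega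
    · subst h'
      left; simp only; omega
    · right; left
      have := a.hsep _ _ h'
      simp only; omega

/-- all gaps are joined to the outer region -/
lemma gap_join (hQ : GridIn Q n) (hE1 : ∀ z ∈ E, a.yB ≤ z.2 ∧ z.2 ≤ a.yT ∧ InR n z)
    (hcross : ∀ j, Join Q (a.Z E) ((a.b j).β - 1, a.yB) ((a.b j).β + 2 * q + 1, a.yB))
    {z : ℤ × ℤ} (hz : z ∈ a.O ∪ a.Gap) : Join Q (a.Z E) z (0, 0) := by
  have key : ∀ (k : ℕ) (x : ℤ), (x - a.xL + 1).toNat ≤ k → (x, a.yB) ∈ a.O ∪ a.Gap →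
      Join Q (a.Z E) (x, a.yB) (0, 0) := by
    intro k
    induction k with
    | zero =>
      intro x hk hx
      rcases hx with hx | hx
      · exact (a.O_join hQ hx).mono a.O_sub
      · have := hx.1
        simp only at this
        omega
    | succ k ih =>
      intro x hk hx
      rcases hx with hx | hx
      · exact (a.O_join hQ hx).mono a.O_sub
      have hx1 := hx.1
      have hx2 := hx.2.1
      simp only at hx1 hx2
      have hadj : zgrid.Adj (x, a.yB) (x - 1, a.yB) := by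
        have := zgrid_adj_h (x - 1) a.yB
        rw [show x - 1 + 1 = x by ring] at this
        exact this.symm
      have hin1 : InR n (x, a.yB) := a.inR_strip (by simp only; omega) (by simp only; omega)
        (by simp only; omega) (by have := a.hyy; simp only; omega)
      have hin2 : InR n (x - 1, a.yB) := a.inR_strip (by simp only; omega) (by simp only; omega)
        (by simp only; omega) (by have := a.hyy; simp only; omega)
      by_cases hmem : (x - 1, a.yB) ∈ a.O ∪ a.Gap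
      · refine Join.trans (Join.single (hQ _ _ hin1 hin2 hadj) (a.Gap_sub hx) ?_)
          (ih (x - 1) (by omega) hmem)
        rcases hmem with h | h
        · exact a.O_sub h
        · exact a.Gap_sub h
      · -- a bundle
        have hxL : a.xL ≤ x - 1 := by
          by_contra hcon
          apply hmem
          left
          exact ⟨hin2, Or.inr (Or.inr (Or.inl (by simp only; omega)))⟩
        have : ∃ j, ¬ (x - 1 < (a.b j).β ∨ (a.b j).Θ < x - 1 ∨
            (a.yB = a.yB ∧ (a.b j).β + 2 * q < x - 1)) := by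
          by_contra hcon
          apply hmem
          right
          refine ⟨hxL, by simp only; omega, le_rfl, a.hyy.le, fun j => ?_⟩
          by_contra h
          exact hcon ⟨j, h⟩
        obtain ⟨j, hj⟩ := this
        simp only [true_and] at hj
        push Not at hj
        obtain ⟨j1, j2, j3⟩ := hj
        have h6 : x = (a.b j).β + 2 * q + 1 := by
          have h7 := hx.2.2.2.2 j
          simp only [true_and] at h7
          have := a.hΘ' j
          omega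
        have h8 := (hcross j).symm
        rw [h6]
        have := a.hxL j
        exact h8.trans (ih _ (by omega) (a.left_gap j))
  rcases hz with hz | hz
  · exact (a.O_join hQ hz).mono a.O_sub
  · obtain ⟨h1, h2⟩ := a.gap_down hQ hE1 hz
    exact h2.trans (key _ z.1 le_rfl (Or.inr h1))

theorem Z_conn (hQ : GridIn Q n) (hE1 : ∀ z ∈ E, a.yB ≤ z.2 ∧ z.2 ≤ a.yT ∧ InR n z)
    (hcross : ∀ j, Join Q (a.Z E) ((a.b j).β - 1, a.yB) ((a.b j).β + 2 * q + 1, a.yB))
    (hev : ∀ j, ∀ s : ℕ, s ≤ q → ∃ y ∈ a.O ∪ a.Gap,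
      Join Q (a.Z E) ((a.b j).β + (2 * s : ℕ), a.yB) y)
    (hEj : ∀ z ∈ E, ∃ y ∈ a.Ev, Join Q (a.Z E) z y) : Conn Q (a.Z E) := by
  have b1 := a.box1
  have b2 := a.box2
  have b3 := a.box3
  have b4 := a.box4
  obtain ⟨j₀⟩ : Nonempty (Fin q) := ⟨⟨0, a.hq⟩⟩
  have c1 := a.hxL j₀
  have c2 := a.hxR j₀
  have c3 := a.hΘ' j₀
  have h0 : ((0, 0) : ℤ × ℤ) ∈ a.O :=
    ⟨⟨le_rfl, by simp only; omega, le_rfl, by have := a.hyy; simp only; omega⟩, Or.inl b3⟩
  have hEv : ∀ z ∈ a.Ev, Join Q (a.Z E) z (0, 0) := by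
    intro z hz
    obtain ⟨j, s, hs, hz⟩ := hz
    have h1 := (a.b j).tr_join (by rw [a.hT]; omega) hz
    have h2 : Join Q (a.Z E) z ((a.b j).β + (2 * s : ℕ), a.yB) := by
      rw [a.hyB] at h1
      exact join_lift hQ (a.Z_in hE1) (h1.mono (fun x hx => a.Ev_sub ⟨j, s, hs, hx⟩))
    obtain ⟨y, hy, h3⟩ := hev j s hs
    exact (h2.trans h3).trans (a.gap_join hQ hE1 hcross hy)
  refine conn_of_base (0, 0) (a.O_sub h0) ?_
  rintro z (((hz | hz) | hz) | hz)
  · exact a.gap_join hQ hE1 hcross (Or.inl hz)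
  · exact a.gap_join hQ hE1 hcross (Or.inr hz)
  · exact hEv z hz
  · obtain ⟨y, hy, h⟩ := hEj z hz
    exact h.trans (hEv y hy)

/-- the index of the region containing `y` -/
noncomputable def tgt (y : ℤ × ℤ) : ℕ := tgtN (fun j => (a.b j).β) a.O y

/-- two points of the same region are joined -/
lemma same_tgt (hQ : GridIn Q n) (hE1 : ∀ z ∈ E, a.yB ≤ z.2 ∧ z.2 ≤ a.yT ∧ InR n z)
    {y y' : ℤ × ℤ} (hy : y ∈ a.O ∨ a.Free y) (hy' : y' ∈ a.O ∨ a.Free y')
    (h : a.tgt y = a.tgt y') : Join Q (a.Z E) y y' := by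
  classical
  have hmono : ∀ j j', j < j' → (a.b j).β < (a.b j').β := by
    intro j j' hj
    have := a.hsep j j' hj
    have := a.hΘ' j
    omega
  -- two free points with the same count
  have key : ∀ y y' : ℤ × ℤ, a.Free y → a.Free y' → y.1 ≤ y'.1 →
      (Finset.univ.filter (fun j => (a.b j).β ≤ y.1)).card =
      (Finset.univ.filter (fun j => (a.b j).β ≤ y'.1)).card → Join Q (a.Z E) y y' := by
    intro y y' hy hy' hle hc
    have hsub : Finset.univ.filter (fun j => (a.b j).β ≤ y.1) ⊆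
        Finset.univ.filter (fun j => (a.b j).β ≤ y'.1) := by
      intro j hj
      rw [Finset.mem_filter] at hj ⊢
      exact ⟨hj.1, hj.2.trans hle⟩
    have heq := Finset.eq_of_subset_of_card_le hsub hc.ge
    have h1 := (a.gap_down hQ hE1 hy.gap).2
    have h2 := (a.gap_down hQ hE1 hy'.gap).2
    refine (h1.trans (hh hQ (a.Z_in hE1) a.yB y.1 y'.1 hle ?_)).trans h2.symm
    intro x hx1 hx2
    apply a.Gap_sub
    apply Free.gap
    refine ⟨hy.1.trans hx1, hx2.trans hy'.2.1, le_rfl, a.hyy.le, fun j => ?_⟩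
    rcases hy.2.2.2.2 j with g | g
    · have g1 : j ∉ Finset.univ.filter (fun j => (a.b j).β ≤ y.1) := by
        rw [Finset.mem_filter]
        rintro ⟨-, g'⟩
        omega
      rw [heq, Finset.mem_filter] at g1
      push Not at g1
      have := g1 (Finset.mem_univ j)
      left; simp only; omega
    · right; simp only; omega
  -- a free point with count 0 is joined to the outer region
  have key0 : ∀ y : ℤ × ℤ, a.Free y →
      (Finset.univ.filter (fun j => (a.b j).β ≤ y.1)).card = 0 → Join Q (a.Z E) y (0, 0) := by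
    intro y hy hc
    rw [Finset.card_eq_zero, Finset.filter_eq_empty_iff] at hc
    have h1 := (a.gap_down hQ hE1 hy.gap).2
    have hO : ((a.xL - 1, a.yB) : ℤ × ℤ) ∈ a.O := by
      obtain ⟨j₀⟩ : Nonempty (Fin q) := ⟨⟨0, a.hq⟩⟩
      have c1 := a.hxL j₀
      have c2 := a.hxR j₀
      have c3 := a.hΘ' j₀
      exact ⟨a.inR_strip (by simp only; omega) (by simp only; omega) (by simp only; omega)
        (by have := a.hyy; simp only; omega), Or.inr (Or.inr (Or.inl (by simp only; omega)))⟩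
    have hy1 := hy.1
    have h2 : Join Q (a.Z E) (a.xL - 1, a.yB) (y.1, a.yB) := by
      apply hh hQ (a.Z_in hE1) a.yB _ _ (by omega)
      intro x hx1 hx2
      rcases hx1.eq_or_lt with h | h
      · rw [← h]; exact a.O_sub hO
      · apply a.Gap_sub
        apply Free.gap
        refine ⟨by simp only; omega, by have := hy.2.1; simp only; omega, le_rfl, a.hyy.le,
          fun j => ?_⟩
        have := hc (Finset.mem_univ j)
        left; simp only; omega
    exact (h1.trans h2.symm).trans ((a.O_join hQ hO).mono a.O_sub)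
  unfold tgt tgtN at h
  by_cases h1 : y ∈ a.O
  · rw [if_pos h1] at h
    by_cases h2 : y' ∈ a.O
    · exact ((a.O_join hQ h1).mono a.O_sub).trans ((a.O_join hQ h2).mono a.O_sub).symm
    · rw [if_neg h2] at h
      have h3 := hy'.resolve_left h2
      exact ((a.O_join hQ h1).mono a.O_sub).trans (key0 y' h3 h.symm).symm
  · rw [if_neg h1] at h
    have h3 := hy.resolve_left h1
    by_cases h2 : y' ∈ a.O
    · rw [if_pos h2] at h
      exact (key0 y h3 h).trans ((a.O_join hQ h2).mono a.O_sub).symm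
    · rw [if_neg h2] at h
      have h4 := hy'.resolve_left h2
      rcases le_total y.1 y'.1 with hle | hle
      · exact key y y' h3 h4 hle h
      · exact (key y' y h4 h3 hle h.symm).symm

end Arr

end Pool.Agent.Lib.MP_69d199_co
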