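import Pool.Agent.Lib.MP_69d199_co.Sharp.T6
import Pool.Agent.Lib.MP_69d199_co.Sharp.T3

/-!
# The case of many jumps leaving the band of their bundle
-/

set_option autoImplicit false

namespace Pool.Agent.Lib.MP_69d199_co

lemma ctr_lt {D : ℤ} (hD : 0 ≤ D) {M : ℕ} {k k' : Fin M} (h : k < k') :
    D * ((k : ℕ) : ℤ) + D ≤ D * ((k' : ℕ) : ℤ) := by
  have h1 : ((k : ℕ) : ℤ) + 1 ≤ ((k' : ℕ) : ℤ) := by
    have : (k : ℕ) + 1 ≤ (k' : ℕ) := h
    exact_mod_cast this
  nlinarith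

lemma ctr_nonneg {D : ℤ} (hD : 0 ≤ D) {M : ℕ} (k : Fin M) : 0 ≤ D * ((k : ℕ) : ℤ) := by
  positivity

lemma ctr_le {D : ℤ} (hD : 0 ≤ D) {M : ℕ} (k : Fin M) :
    D * ((k : ℕ) : ℤ) + D ≤ D * (M : ℤ) := by
  have h1 : ((k : ℕ) : ℤ) + 1 ≤ (M : ℤ) := by
    have : (k : ℕ) + 1 ≤ M := k.2
    exact_mod_cast this
  nlinarith

namespace Arr

variable {q m L n : ℕ} (a : Arr q m L n) {Q : SimpleGraph (ℤ × ℤ)} {E : Set (ℤ × ℤ)}

/-- from the bottom of an even track along a tentacle -/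
lemma ten_path (hQ : GridIn Q n) (hE1 : ∀ z ∈ E, a.yB ≤ z.2 ∧ z.2 ≤ a.yT ∧ InR n z)
    (j : Fin q) (g : Fin m) (s : ℕ) (hs : (a.b j).σ g = 2 * s)
    (hTen : (a.b j).Ten g ⊆ E) :
    Join Q (a.Z E) ((a.b j).β + (2 * s : ℕ), a.yB) ((a.b j).v g, (a.b j).u g) := by
  have hσ := (a.b j).hσ g
  rw [a.hT j, hs] at hσ
  have hs' : s ≤ q := by omega
  have h1 := (a.b j).tr_join (τ := 2 * s) (by rw [a.hT]; omega)
    (Or.inl (hs ▸ (a.b j).ten_base g))
  rw [a.hyB] at h1
  have h2 : (((a.b j).v g, (a.b j).u g) : ℤ × ℤ) ∈ (a.b j).Ten g := by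
    refine ⟨rfl, ?_, le_rfl⟩
    obtain ⟨-, -, h3, -⟩ := (a.b j).huv g
    have h4 : ((a.b j).σ g : ℤ) < (a.b j).T := by exact_mod_cast (a.b j).hσ g
    simp only
    omega
  have h3 := (a.b j).ten_join g h2
  rw [hs] at h3
  have h4 : Join zgrid (a.Z E) ((a.b j).β + (2 * s : ℕ), a.yB)
      ((a.b j).β + (2 * s : ℕ), (a.b j).u g) :=
    (h1.symm).mono (fun x hx => a.Ev_sub ⟨j, s, hs', hx⟩)
  have h5 : Join zgrid (a.Z E) ((a.b j).β + (2 * s : ℕ), (a.b j).u g)
      ((a.b j).v g, (a.b j).u g) := (h3.symm).mono (fun x hx => a.E_sub (hTen hx))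
  exact join_lift hQ (a.Z_in hE1) (h4.trans h5)

lemma step_left (hQ : GridIn Q n) (hE1 : ∀ z ∈ E, a.yB ≤ z.2 ∧ z.2 ≤ a.yT ∧ InR n z)
    (j : Fin q) : Join Q (a.Z E) ((a.b j).β - 1, a.yB) ((a.b j).β + (2 * 0 : ℕ), a.yB) := by
  have h1 : (((a.b j).β - 1, a.yB) : ℤ × ℤ) ∈ a.Z E := by
    rcases a.left_gap j with h | h
    · exact a.O_sub h
    · exact a.Gap_sub h
  have h2 := a.Ev_sub (E := E) (a.tr0_bot j (s := 0) (Nat.zero_le _))
  refine Join.single (hQ _ _ (a.Z_in hE1 _ h1) (a.Z_in hE1 _ h2) ?_) h1 h2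
  have := zgrid_adj_h ((a.b j).β - 1) a.yB
  have e : (a.b j).β - 1 + 1 = (a.b j).β + ((2 * 0 : ℕ) : ℤ) := by push_cast; ring
  rw [e] at this
  exact this

lemma right_gap (j : Fin q) : ((a.b j).β + 2 * q + 1, a.yB) ∈ a.O ∪ a.Gap := by
  have h1 := a.hxL j
  have h2 := a.hxR j
  have h3 := a.hΘ' j
  have hyy := a.hyy
  by_cases h : a.xR < (a.b j).β + 2 * q + 1
  · left
    exact ⟨a.inR_strip (by simp only; omega) (by simp only; omega) (by simp only; omega)
      (by simp only; omega), Or.inr (Or.inr (Or.inr h))⟩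
  · right
    refine ⟨by simp only; omega, by simp only; omega, le_rfl, a.hyy.le, ?_⟩
    intro j'
    rcases lt_trichotomy j j' with h' | h' | h'
    · left
      have := a.hsep _ _ h'
      simp only; omega
    · subst h'
      right; right
      refine ⟨rfl, ?_⟩
      simp only; omega
    · right; left
      have := a.hsep _ _ h'
      simp only; omega

lemma step_right (hQ : GridIn Q n) (hE1 : ∀ z ∈ E, a.yB ≤ z.2 ∧ z.2 ≤ a.yT ∧ InR n z)
    (j : Fin q) :
    Join Q (a.Z E) ((a.b j).β + (2 * q : ℕ), a.yB) ((a.b j).β + 2 * q + 1, a.yB) := by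
  have h1 : (((a.b j).β + 2 * q + 1, a.yB) : ℤ × ℤ) ∈ a.Z E := by
    rcases a.right_gap j with h | h
    · exact a.O_sub h
    · exact a.Gap_sub h
  have h2 := a.Ev_sub (E := E) (a.tr0_bot j (s := q) le_rfl)
  refine Join.single (hQ _ _ (a.Z_in hE1 _ h2) (a.Z_in hE1 _ h1) ?_) h2 h1
  have := zgrid_adj_h ((a.b j).β + (2 * q : ℕ)) a.yB
  have e : (a.b j).β + ((2 * q : ℕ) : ℤ) + 1 = (a.b j).β + 2 * q + 1 := by push_cast; ring
  rw [e] at this
  exact this

end Arr

/-- the bundle of the case V: the gadget `g` is a tentacle of the track `2g` to the point `x g` -/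
def bundleV (q r : ℕ) (cx yB yT : ℤ) (cy : Fin (q + 1) → ℤ) (x : Fin (q + 1) → ℤ × ℤ)
    (hx : ∀ g, |(x g).1 - cx| < r ∧ |(x g).2 - cy g| < r)
    (hcy : ∀ g g', g ≠ g' → cy g + 2 * (r + 2 * q) < cy g' ∨ cy g' + 2 * (r + 2 * q) < cy g)
    (hB : ∀ g, yB < cy g - (r + 2 * q)) (hT : ∀ g, cy g + (r + 2 * q) < yT) :
    Bundle (q + 1) where
  yB := yB
  yT := yT
  β := cx - (r + 2 * q)
  Θ := cx + (r + 2 * q)
  T := 2 * q + 1
  A g := cy g - (r + 2 * q)
  B g := cy g + (r + 2 * q)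
  σ g := 2 * g
  l g τ := (x g).2 - (τ - 2 * (g : ℕ))
  r g τ := (x g).2 + (τ - 2 * (g : ℕ))
  h g τ := (x g).1 + (τ - 2 * (g : ℕ))
  u g := (x g).2
  v g := (x g).1
  hyy := by
    have h1 := hB 0
    have h2 := hT 0
    omega
  hΘ := by push_cast; omega
  hA := hB
  hB := hT
  hAB g g' h := by
    rcases hcy g g' h with h | h
    · left; omega
    · right; omega
  hl g τ h1 h2 := by
    have h3 := hx g
    rw [abs_lt, abs_lt] at h3
    have h4 : (2 * (g : ℕ) : ℤ) < τ := by exact_mod_cast h1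
    have h5 : (τ : ℤ) < 2 * q + 1 := by exact_mod_cast h2
    push_cast
    refine ⟨?_, ?_, ?_, ?_⟩ <;> omega
  hm g τ τ' h1 h2 h3 := by
    have h4 : (τ : ℤ) < τ' := by exact_mod_cast h2
    refine ⟨?_, ?_, ?_⟩ <;> omega
  hσ g := by
    have := g.2
    omega
  huv g := by
    have h3 := hx g
    rw [abs_lt, abs_lt] at h3
    push_cast
    refine ⟨?_, ?_, ?_, ?_⟩ <;> omega
  hu g τ h1 h2 := by
    have h4 : (2 * (g : ℕ) : ℤ) < τ := by exact_mod_cast h1
    refine ⟨?_, ?_, ?_⟩ <;> omega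

theorem caseV {V : Type} {H : SimpleGraph V} {L q r n M : ℕ} (S : ArcSystem V H L)
    (Q : SimpleGraph (ℤ × ℤ)) (hQ : GridIn Q n)
    (hQr : ∀ z z', Q.Adj z z' → InR n z ∧ InR n z') (hq : 1 ≤ q) (hL : L ≤ q * q)
    (hM : 24 * (2 * q + 2) + 1 ≤ M) {W D X₀ : ℤ} (hW : r + 4 * q + 2 ≤ W) (hD : 2 * W + 2 ≤ D)
    (hX₀ : W + 2 * L + 4 < X₀) (hn : X₀ + D * M + W + 2 * L + 4 < n)
    (U : Finset (Fin M × Fin M)) (hU : M * M ≤ 3 * U.card + 1)
    (x y : Fin M × Fin M → ℤ × ℤ) (hadj : ∀ i ∈ U, Q.Adj (x i) (y i))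
    (hx : ∀ i ∈ U, |(x i).1 - (X₀ + D * (i.1 : ℕ))| < r ∧ |(x i).2 - (X₀ + D * (i.2 : ℕ))| < r)
    (hy : ∀ i ∈ U, (r : ℤ) + 2 * q < |(y i).1 - (X₀ + D * (i.1 : ℕ))|) : HasModel H Q n := by
  classical
  have hD0 : 0 ≤ D := by omega
  -- the two margins
  obtain ⟨yB, hyB⟩ : ∃ yB : Bool → ℤ, ∀ loc, yB loc = X₀ - W - 1 -
      ((if loc then 0 else L + 1 : ℕ) : ℤ) :=
    ⟨_, fun _ => rfl⟩
  obtain ⟨yT, hyT⟩ : ∃ yT : Bool → ℤ, ∀ loc, yT loc = X₀ + D * M +
      ((if loc then 0 else L + 1 : ℕ) : ℤ) :=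
    ⟨_, fun _ => rfl⟩
  set good : Bool → Fin M × Fin M → Prop := fun loc i =>
    ¬ ((yB loc - L ≤ (y i).2 ∧ (y i).2 < yB loc) ∨ (yT loc < (y i).2 ∧ (y i).2 ≤ yT loc + L))
    with hgooddef
  have hgood : ∀ i ∈ U, good true i ∨ good false i := by
    intro i _
    simp only [hgooddef, hyB, hyT, if_true, if_false, Bool.false_eq_true]
    have : 0 ≤ D * (M : ℤ) := by positivity
    omega
  -- the bands
  set band : Fin M × Fin M → Option (Fin M) := fun i =>
    if h : ∃ k : Fin M, |(y i).1 - (X₀ + D * (k : ℕ))| ≤ r + 2 * q then some h.choose else none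
    with hbanddef
  have hbspec : ∀ i k, band i = some k → |(y i).1 - (X₀ + D * (k : ℕ))| ≤ r + 2 * q := by
    intro i k hk
    simp only [hbanddef] at hk
    split_ifs at hk with h
    rw [Option.some_inj] at hk
    rw [← hk]
    exact h.choose_spec
  have hband : ∀ i ∈ U, band i ≠ some i.1 := by
    intro i hi h
    have h1 := hbspec i i.1 h
    have h2 := hy i hi
    omega
  have hbuniq : ∀ i (k : Fin M), |(y i).1 - (X₀ + D * (k : ℕ))| ≤ r + 2 * q → band i = some k := by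
    intro i k hk
    have hex : ∃ k : Fin M, |(y i).1 - (X₀ + D * (k : ℕ))| ≤ r + 2 * q := ⟨k, hk⟩
    have h1 : band i = some hex.choose := by simp only [hbanddef]; rw [dif_pos hex]
    have h2 := hex.choose_spec
    rw [h1]
    congr 1
    rw [abs_le] at h2 hk
    rcases lt_trichotomy hex.choose k with h | h | h
    · have := ctr_lt hD0 h; omega
    · exact h
    · have := ctr_lt hD0 h; omega
  obtain ⟨loc, ac, F, hF1, hF2⟩ := select_long hM U hU good hgood band hband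
  -- the order of the blocks of a bundle
  set β : Fin q → ℤ := fun j => X₀ + D * (ac j : ℕ) - (r + 2 * q) with hβ
  have hpick := fun j => pick_pair hq (F j) (hF1 j)
    (fun k => tgtN β (Oset n L (yB loc) (yT loc) (X₀ - W) (X₀ + D * M)) (y (ac j, k)))
    (fun _ _ => tgtN_le _ _ _)
  choose blk hinj hmem htgt using hpick
  have hloc0 : (0 : ℤ) ≤ ((if loc then 0 else L + 1 : ℕ) : ℤ) := by positivity
  have hloc1 : ((if loc then 0 else L + 1 : ℕ) : ℤ) ≤ L + 1 := by split_ifs <;> push_cast <;> omega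
  have hc0 : ∀ k : Fin M, X₀ ≤ X₀ + D * (k : ℕ) := fun k => by
    have := ctr_nonneg hD0 k; omega
  have hc1 : ∀ k : Fin M, X₀ + D * (k : ℕ) + D ≤ X₀ + D * M := fun k => by
    have := ctr_le hD0 k; omega
  have hUm : ∀ j g, (ac j, blk j g) ∈ U := fun j g => (hF2 j _ (hmem j g)).1
  -- the array
  set a : Arr q (q + 1) L n :=
    { b := fun j => bundleV q r (X₀ + D * (ac j : ℕ)) (yB loc) (yT loc)
        (fun g => X₀ + D * (blk j g : ℕ)) (fun g => x (ac j, blk j g))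
        (fun g => hx _ (hUm j g))
        (fun g g' hg => by
          have h1 : blk j g ≠ blk j g' := fun h => hg (hinj j h)
          rcases lt_or_gt_of_ne h1 with h | h
          · left; have := ctr_lt hD0 h; omega
          · right; have := ctr_lt hD0 h; omega)
        (fun g => by
          have := hc0 (blk j g)
          rw [hyB]; omega)
        (fun g => by
          have := hc1 (blk j g)
          rw [hyT]; omega)
      yB := yB loc
      yT := yT loc
      xL := X₀ - W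
      xR := X₀ + D * M
      hq := hq
      hL := hL
      hyB := fun _ => rfl
      hyT := fun _ => rfl
      hyy := by
        rw [hyB, hyT]
        have : 0 ≤ D * (M : ℤ) := by positivity
        omega
      hT := fun _ => rfl
      hsep := by
        intro j j' h
        have := ctr_lt hD0 (ac.strictMono h)
        show X₀ + D * (ac j : ℕ) + (r + 2 * q) + 1 < X₀ + D * (ac j' : ℕ) - (r + 2 * q)
        omega
      hxL := by
        intro j
        have := hc0 (ac j)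
        show X₀ - W ≤ X₀ + D * (ac j : ℕ) - (r + 2 * q)
        omega
      hxR := by
        intro j
        have := hc1 (ac j)
        show X₀ + D * (ac j : ℕ) + (r + 2 * q) ≤ X₀ + D * M
        omega
      box1 := by omega
      box2 := by omega
      box3 := by rw [hyB]; omega
      box4 := by rw [hyT]; omega } with ha
  have hab : ∀ j, (a.b j).β = β j := fun _ => rfl
  have haΘ : ∀ j, (a.b j).Θ = X₀ + D * (ac j : ℕ) + (r + 2 * q) := fun _ => rfl
  have haσ : ∀ j g, (a.b j).σ g = 2 * (g : ℕ) := fun _ _ => rfl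
  have hauv : ∀ j g, (((a.b j).v g, (a.b j).u g) : ℤ × ℤ) = x (ac j, blk j g) := fun _ _ => rfl
  have haO : a.O = Oset n L (yB loc) (yT loc) (X₀ - W) (X₀ + D * M) := rfl
  set E : Set (ℤ × ℤ) := {z | ∃ j g, z ∈ (a.b j).Ten g} with hE
  have hE1 : ∀ z ∈ E, a.yB ≤ z.2 ∧ z.2 ≤ a.yT ∧ InR n z := by
    rintro z ⟨j, g, hz⟩
    obtain ⟨h1, h2, h3, h4⟩ := (a.b j).ten_range g hz
    rw [a.hyB] at h1
    rw [a.hyT] at h2
    have h5 := a.hxL j
    have h6 := a.hxR j
    exact ⟨h1.le, h2.le, a.inR_strip (by omega) (by omega) (by omega) (by omega)⟩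
  have hE2 : ∀ z ∈ E, ∀ j, ∀ s < q, z ∉ (a.b j).Tr (2 * s + 1) := by
    rintro z ⟨j, g, hz⟩ j' s hs hz'
    by_cases e : j = j'
    · subst e
      exact (a.b j).ten_disj (by rw [haσ]; omega) (by rw [a.hT]; omega) hz hz'
    · obtain ⟨-, -, h3, h4⟩ := (a.b j).ten_range g hz
      obtain ⟨-, -, h5, h6⟩ := a.tr_rg j' (by omega) hz'
      rcases lt_or_gt_of_ne e with h | h
      · have := a.hsep _ _ h; omega
      · have := a.hsep _ _ h; omega
  refine a.model S Q hQ E hE1 hE2 ?_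
  -- the far ends of the jumps
  have hyfree : ∀ j g, y (ac j, blk j g) ∈ a.O ∨ a.Free (y (ac j, blk j g)) := by
    intro j g
    obtain ⟨h1, h2, h3⟩ := hF2 j _ (hmem j g)
    have hin := (hQr _ _ (hadj _ h1)).2
    by_cases hO : y (ac j, blk j g) ∈ a.O
    · exact Or.inl hO
    · right
      rw [haO] at hO
      have hO' : ¬ ((y (ac j, blk j g)).2 < yB loc - L ∨ yT loc + L < (y (ac j, blk j g)).2 ∨
          (y (ac j, blk j g)).1 < X₀ - W ∨ X₀ + D * M < (y (ac j, blk j g)).1) :=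
        fun h => hO ⟨hin, h⟩
      have h2' : ¬ ((yB loc - L ≤ (y (ac j, blk j g)).2 ∧ (y (ac j, blk j g)).2 < yB loc) ∨
        (yT loc < (y (ac j, blk j g)).2 ∧ (y (ac j, blk j g)).2 ≤ yT loc + L)) := h2
      refine ⟨?_, ?_, ?_, ?_, ?_⟩
      · show X₀ - W ≤ _; omega
      · show _ ≤ X₀ + D * M; omega
      · show yB loc ≤ _; omega
      · show _ ≤ yT loc; omega
      · intro j'
        have h4 : ¬ |(y (ac j, blk j g)).1 - (X₀ + D * (ac j' : ℕ))| ≤ r + 2 * q :=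
          fun h => h3 j' (hbuniq _ _ h)
        rw [abs_le] at h4
        rw [haΘ, hab]
        simp only [hβ]
        omega
  have hyZ : ∀ j g, y (ac j, blk j g) ∈ a.O ∪ a.Gap := by
    intro j g
    rcases hyfree j g with h | h
    · exact Or.inl h
    · exact Or.inr h.gap
  have hyZ' : ∀ j g, y (ac j, blk j g) ∈ a.Z E := by
    intro j g
    rcases hyZ j g with h | h
    · exact a.O_sub h
    · exact a.Gap_sub h
  -- from a track to the far end of its jump
  have hjump : ∀ j (g : Fin (q + 1)), Join Q (a.Z E) ((a.b j).β + (2 * (g : ℕ) : ℕ), a.yB)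
      (y (ac j, blk j g)) := by
    intro j g
    have h1 := a.ten_path hQ hE1 j g g (haσ j g) (fun z hz => ⟨j, g, hz⟩)
    rw [hauv] at h1
    refine h1.trans (Join.single (hadj _ (hUm j g)) ?_ (hyZ' j g))
    apply a.E_sub
    rw [← hauv]
    refine ⟨j, g, rfl, ?_, le_rfl⟩
    obtain ⟨-, -, h3, -⟩ := (a.b j).huv g
    have h4 : ((a.b j).σ g : ℤ) < (a.b j).T := by exact_mod_cast (a.b j).hσ g
    simp only
    omega
  refine a.Z_conn hQ hE1 ?_ ?_ ?_
  · intro j
    have h0 := hjump j 0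
    have hl := hjump j (Fin.last q)
    have hs := a.same_tgt hQ hE1 (hyfree j 0) (hyfree j (Fin.last q)) (htgt j)
    have h1 := a.step_left hQ hE1 j
    have h2 := a.step_right hQ hE1 j
    exact (((h1.trans h0).trans hs).trans hl.symm).trans h2
  · intro j s hs
    exact ⟨_, hyZ j ⟨s, by omega⟩, hjump j ⟨s, by omega⟩⟩
  · rintro z ⟨j, g, hz⟩
    refine ⟨((a.b j).β + (a.b j).σ g, (a.b j).u g), ?_, ?_⟩
    · refine ⟨j, g, by have := g.2; omega, ?_⟩
      have := (a.b j).ten_base g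
      exact Or.inl this
    · exact Arr.join_lift hQ (a.Z_in hE1)
        (((a.b j).ten_join g hz).mono (fun x hx => a.E_sub ⟨j, g, hx⟩))

end Pool.Agent.Lib.MP_69d199_co
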