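import Pool.Agent.Lib.MP_69d199_co.Sharp.T7

/-!
# The case of many short jumps
-/

set_option autoImplicit false

namespace Pool.Agent.Lib.MP_69d199_co

/-- the bundle of the case S: the gadget `g` is a tentacle of the track `2g` to the point `lo g`;
the tracks `2g + 1` and `2g + 2` pass around `lo g` at distance 1 and 2, the next ones around
`lo g` and `hi g` -/
def bundleS (q w : ℕ) (cx yB yT : ℤ) (hyy : yB < yT) (cy : Fin q → ℤ) (lo hi : Fin q → ℤ × ℤ)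
    (hlo : ∀ g, |(lo g).1 - cx| ≤ w ∧ |(lo g).2 - cy g| ≤ w)
    (hhi : ∀ g, |(hi g).1 - cx| ≤ w ∧ |(hi g).2 - cy g| ≤ w)
    (hcy : ∀ g g', g ≠ g' → cy g + 2 * (w + 2 * q + 2) < cy g' ∨
      cy g' + 2 * (w + 2 * q + 2) < cy g)
    (hB : ∀ g, yB < cy g - (w + 2 * q + 2)) (hT : ∀ g, cy g + (w + 2 * q + 2) < yT) :
    Bundle q where
  yB := yB
  yT := yT
  β := cx - w - (2 * q + 1)
  Θ := cx + (w + 2 * q + 2)
  T := 2 * q + 1
  A g := cy g - (w + 2 * q + 2)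
  B g := cy g + (w + 2 * q + 2)
  σ g := 2 * g
  l g τ := if τ ≤ 2 * (g : ℕ) + 2 then (lo g).2 - (τ - 2 * (g : ℕ))
    else min ((lo g).2 - 2) (hi g).2 - (τ - 2 * (g : ℕ) - 2)
  r g τ := if τ ≤ 2 * (g : ℕ) + 2 then (lo g).2 + (τ - 2 * (g : ℕ))
    else max ((lo g).2 + 2) (hi g).2 + (τ - 2 * (g : ℕ) - 2)
  h g τ := if τ ≤ 2 * (g : ℕ) + 2 then (lo g).1 + (τ - 2 * (g : ℕ))
    else max ((lo g).1 + 2) (hi g).1 + (τ - 2 * (g : ℕ) - 2)
  u g := (lo g).2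
  v g := (lo g).1
  hyy := hyy
  hΘ := by push_cast; omega
  hA := hB
  hB := hT
  hAB g g' h := by
    rcases hcy g g' h with h | h
    · left; omega
    · right; omega
  hl g τ h1 h2 := by
    have h3 := hlo g
    have h3' := hhi g
    rw [abs_le, abs_le] at h3 h3'
    have h4 : (2 * (g : ℕ) : ℤ) < τ := by exact_mod_cast h1
    have h5 : (τ : ℤ) < 2 * q + 1 := by exact_mod_cast h2
    have h6 : 0 ≤ ((g : ℕ) : ℤ) := by positivity
    split_ifs with h7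
    · have h8 : (τ : ℤ) ≤ 2 * (g : ℕ) + 2 := by exact_mod_cast h7
      push_cast
      refine ⟨?_, ?_, ?_, ?_⟩ <;> omega
    · have h8 : ¬ (τ : ℤ) ≤ 2 * (g : ℕ) + 2 := by exact_mod_cast h7
      push_cast
      refine ⟨?_, ?_, ?_, ?_⟩ <;> omega
  hm g τ τ' h1 h2 h3 := by
    have h4 : (τ : ℤ) < τ' := by exact_mod_cast h2
    have h5 : (2 * (g : ℕ) : ℤ) < τ := by exact_mod_cast h1
    by_cases h7 : τ ≤ 2 * (g : ℕ) + 2
    · by_cases h8 : τ' ≤ 2 * (g : ℕ) + 2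
      · simp only [if_pos h7, if_pos h8]
        refine ⟨?_, ?_, ?_⟩ <;> omega
      · simp only [if_pos h7, if_neg h8]
        have h9 : (τ : ℤ) ≤ 2 * (g : ℕ) + 2 := by exact_mod_cast h7
        have h10 : ¬ (τ' : ℤ) ≤ 2 * (g : ℕ) + 2 := by exact_mod_cast h8
        refine ⟨?_, ?_, ?_⟩ <;> omega
    · have h8 : ¬ τ' ≤ 2 * (g : ℕ) + 2 := fun h => h7 (h2.le.trans h)
      simp only [if_neg h7, if_neg h8]
      refine ⟨?_, ?_, ?_⟩ <;> omega
  hσ g := by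
    have := g.2
    omega
  huv g := by
    have h3 := hlo g
    rw [abs_le, abs_le] at h3
    push_cast
    refine ⟨?_, ?_, ?_, ?_⟩ <;> omega
  hu g τ h1 h2 := by
    have h4 : (2 * (g : ℕ) : ℤ) < τ := by exact_mod_cast h1
    split_ifs with h7
    · refine ⟨?_, ?_, ?_⟩ <;> omega
    · have h8 : ¬ (τ : ℤ) ≤ 2 * (g : ℕ) + 2 := by exact_mod_cast h7
      refine ⟨?_, ?_, ?_⟩ <;> omega

/-- the second tentacle, from the track `2g + 2` to `hi g` -/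
def Ten2 {q : ℕ} (b : Bundle q) (lo hi : ℤ × ℤ) (g : Fin q) : Set (ℤ × ℤ) :=
  {z | z.2 = hi.2 ∧ z.1 ≤ hi.1 ∧
    ((2 ≤ |hi.2 - lo.2| ∧ b.β + (2 * (g : ℕ) + 2 : ℕ) ≤ z.1) ∨
      (¬ 2 ≤ |hi.2 - lo.2| ∧ lo.1 + 2 ≤ z.1))}

section

variable {q w : ℕ} {cx yB yT : ℤ} {hyy : yB < yT} {cy : Fin q → ℤ} {lo hi : Fin q → ℤ × ℤ}
    {hlo : ∀ g, |(lo g).1 - cx| ≤ w ∧ |(lo g).2 - cy g| ≤ w}
    {hhi : ∀ g, |(hi g).1 - cx| ≤ w ∧ |(hi g).2 - cy g| ≤ w}
    {hcy : ∀ g g', g ≠ g' → cy g + 2 * (w + 2 * q + 2) < cy g' ∨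
      cy g' + 2 * (w + 2 * q + 2) < cy g}
    {hB : ∀ g, yB < cy g - (w + 2 * q + 2)} {hT : ∀ g, cy g + (w + 2 * q + 2) < yT}

lemma ten2_range (b : Bundle q) (hb : b = bundleS q w cx yB yT hyy cy lo hi hlo hhi hcy hB hT)
    (g : Fin q) {z : ℤ × ℤ} (hz : z ∈ Ten2 b (lo g) (hi g) g) :
    b.A g ≤ z.2 ∧ z.2 ≤ b.B g ∧ b.β + (2 * (g : ℕ) + 2 : ℕ) ≤ z.1 ∧ z.1 ≤ b.Θ := by
  obtain ⟨h1, h2, h3⟩ := hz
  have h4 := hlo g
  have h4' := hhi g
  rw [abs_le, abs_le] at h4 h4'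
  have hg := g.2
  have eA : b.A g = cy g - (w + 2 * q + 2) := by rw [hb]; rfl
  have eB : b.B g = cy g + (w + 2 * q + 2) := by rw [hb]; rfl
  have eβ : b.β = cx - w - (2 * q + 1) := by rw [hb]; rfl
  have eΘ : b.Θ = cx + (w + 2 * q + 2) := by rw [hb]; rfl
  rw [eA, eB, eΘ]
  rw [eβ] at h3 ⊢
  push_cast at h3 ⊢
  rcases h3 with ⟨-, h3⟩ | ⟨-, h3⟩ <;> refine ⟨?_, ?_, ?_, ?_⟩ <;> omega

lemma ten2_disj (b : Bundle q) (hb : b = bundleS q w cx yB yT hyy cy lo hi hlo hhi hcy hB hT)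
    (g : Fin q) {τ : ℕ} (hτ : τ < 2 * q + 1) (hne : τ ≠ 2 * (g : ℕ) + 2) {z : ℤ × ℤ}
    (hz : z ∈ Ten2 b (lo g) (hi g) g) (hτ0 : τ ≠ 2 * (g : ℕ) ∨ True) : z ∉ b.Tr τ := by
  have hr := ten2_range b hb g hz
  obtain ⟨h1, h2, h3⟩ := hz
  have h4 := hlo g
  have h4' := hhi g
  rw [abs_le, abs_le] at h4 h4'
  have hg := g.2
  have eσ : b.σ g = 2 * (g : ℕ) := by rw [hb]; rfl
  have eT : b.T = 2 * q + 1 := by rw [hb]; rfl
  have eβ : b.β = cx - w - (2 * q + 1) := by rw [hb]; rfl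
  have el : b.l g τ = if τ ≤ 2 * (g : ℕ) + 2 then (lo g).2 - (τ - 2 * (g : ℕ))
    else min ((lo g).2 - 2) (hi g).2 - (τ - 2 * (g : ℕ) - 2) := by rw [hb]; rfl
  have er : b.r g τ = if τ ≤ 2 * (g : ℕ) + 2 then (lo g).2 + (τ - 2 * (g : ℕ))
    else max ((lo g).2 + 2) (hi g).2 + (τ - 2 * (g : ℕ) - 2) := by rw [hb]; rfl
  have eh : b.h g τ = if τ ≤ 2 * (g : ℕ) + 2 then (lo g).1 + (τ - 2 * (g : ℕ))
    else max ((lo g).1 + 2) (hi g).1 + (τ - 2 * (g : ℕ) - 2) := by rw [hb]; rfl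
  by_cases h7 : τ ≤ 2 * (g : ℕ) + 2
  · -- the tracks below the second tentacle
    by_cases h8 : τ ≤ 2 * (g : ℕ)
    · apply b.seg_disj (by rw [eT]; exact hτ) (g := g) ⟨hr.1, hr.2.1⟩
      · intro h; rw [eσ] at h; omega
      · intro _
        have : (τ : ℤ) ≤ 2 * (g : ℕ) := by exact_mod_cast h8
        have := hr.2.2.1
        push_cast at this
        omega
    · have h9 : τ = 2 * (g : ℕ) + 1 := by omega
      rw [if_pos h7] at el er eh
      have h9' : (τ : ℤ) = 2 * (g : ℕ) + 1 := by exact_mod_cast h9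
      rw [h9'] at el er eh
      rintro (hz | ⟨g', hz⟩)
      · have a1 := hz.1
        have a2 := hr.2.2.1
        push_cast at a2
        omega
      · by_cases e : g = g'
        · subst e
          obtain ⟨-, hz⟩ := hz
          rcases h3 with ⟨h3, h3'⟩ | ⟨h3, h3'⟩
          · rw [le_abs] at h3
            rcases hz with ⟨k1 | k1, k2, k3⟩ | ⟨k1, k2, k3⟩ <;> omega
          · rcases hz with ⟨k1 | k1, k2, k3⟩ | ⟨k1, k2, k3⟩ <;> omega
        · obtain ⟨c1, c2, c3, c4⟩ := b.hat_range (by rw [eT]; exact hτ) hz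
          rcases b.hAB g g' e with h' | h' <;> omega
  · have h8 : (2 * (g : ℕ) : ℤ) + 2 < τ := by
      have : 2 * (g : ℕ) + 2 < τ := not_le.1 h7
      exact_mod_cast this
    rw [if_neg h7] at el er eh
    apply b.seg_disj (by rw [eT]; exact hτ) (g := g) ⟨hr.1, hr.2.1⟩
    · intro _
      rw [el, er, eh]
      refine ⟨?_, ?_, ?_⟩ <;> omega
    · intro h; rw [eσ] at h; omega

/-- the second tentacle starts on the track `2g + 2` -/
lemma ten2_join (b : Bundle q) (hb : b = bundleS q w cx yB yT hyy cy lo hi hlo hhi hcy hB hT)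
    (g : Fin q) {z : ℤ × ℤ}
    (hz : z ∈ Ten2 b (lo g) (hi g) g) : ∃ z' ∈ b.Tr (2 * (g : ℕ) + 2),
      Join zgrid (Ten2 b (lo g) (hi g) g) z z' := by
  obtain ⟨h1, h2, h3⟩ := hz
  have h4 := hlo g
  have h4' := hhi g
  rw [abs_le, abs_le] at h4 h4'
  have hg := g.2
  have eσ : b.σ g = 2 * (g : ℕ) := by rw [hb]; rfl
  have eT : b.T = 2 * q + 1 := by rw [hb]; rfl
  have eβ : b.β = cx - w - (2 * q + 1) := by rw [hb]; rfl
  have eA : b.A g = cy g - (w + 2 * q + 2) := by rw [hb]; rfl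
  have eB : b.B g = cy g + (w + 2 * q + 2) := by rw [hb]; rfl
  have el : b.l g (2 * (g : ℕ) + 2) = (lo g).2 - 2 := by
    have : b.l g (2 * (g : ℕ) + 2) = if 2 * (g : ℕ) + 2 ≤ 2 * (g : ℕ) + 2 then
        (lo g).2 - (((2 * (g : ℕ) + 2 : ℕ) : ℤ) - 2 * (g : ℕ))
      else min ((lo g).2 - 2) (hi g).2 - (((2 * (g : ℕ) + 2 : ℕ) : ℤ) - 2 * (g : ℕ) - 2) := by
      rw [hb]; rfl
    rw [this, if_pos le_rfl]; push_cast; ring
  have er : b.r g (2 * (g : ℕ) + 2) = (lo g).2 + 2 := by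
    have : b.r g (2 * (g : ℕ) + 2) = if 2 * (g : ℕ) + 2 ≤ 2 * (g : ℕ) + 2 then
        (lo g).2 + (((2 * (g : ℕ) + 2 : ℕ) : ℤ) - 2 * (g : ℕ))
      else max ((lo g).2 + 2) (hi g).2 + (((2 * (g : ℕ) + 2 : ℕ) : ℤ) - 2 * (g : ℕ) - 2) := by
      rw [hb]; rfl
    rw [this, if_pos le_rfl]; push_cast; ring
  have eh : b.h g (2 * (g : ℕ) + 2) = (lo g).1 + 2 := by
    have : b.h g (2 * (g : ℕ) + 2) = if 2 * (g : ℕ) + 2 ≤ 2 * (g : ℕ) + 2 then
        (lo g).1 + (((2 * (g : ℕ) + 2 : ℕ) : ℤ) - 2 * (g : ℕ))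
      else max ((lo g).1 + 2) (hi g).1 + (((2 * (g : ℕ) + 2 : ℕ) : ℤ) - 2 * (g : ℕ) - 2) := by
      rw [hb]; rfl
    rw [this, if_pos le_rfl]; push_cast; ring
  rcases h3 with ⟨h3, h3'⟩ | ⟨h3, h3'⟩
  · refine ⟨(b.β + (2 * (g : ℕ) + 2 : ℕ), (hi g).2), ?_, ?_⟩
    · left
      refine b.base_of (by rw [eT]; omega) (g := g) ?_ ?_
      · rw [eA, eB]; omega
      · intro _
        rw [el, er]
        rw [le_abs] at h3
        omega
    · have e : z = (z.1, (hi g).2) := Prod.ext rfl h1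
      rw [e]
      refine (join_horiz _ _ _ h3' ?_).symm
      intro x hx1 hx2
      exact ⟨rfl, hx2.trans h2, Or.inl ⟨h3, hx1⟩⟩
  · refine ⟨((lo g).1 + 2, (hi g).2), ?_, ?_⟩
    · right
      refine ⟨g, by rw [eσ]; omega, Or.inr ⟨eh.symm, ?_, ?_⟩⟩
      · rw [el]
        rw [le_abs] at h3
        simp only
        omega
      · rw [er]
        rw [le_abs] at h3
        simp only
        omega
    · have e : z = (z.1, (hi g).2) := Prod.ext rfl h1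
      rw [e]
      refine (join_horiz _ _ _ h3' ?_).symm
      intro x hx1 hx2
      exact ⟨rfl, hx2.trans h2, Or.inr ⟨h3, hx1⟩⟩

lemma hi_mem (b : Bundle q) (hb : b = bundleS q w cx yB yT hyy cy lo hi hlo hhi hcy hB hT)
    (g : Fin q) (hd : 2 ≤ |(hi g).2 - (lo g).2| ∨ (lo g).1 + 2 ≤ (hi g).1) :
    hi g ∈ Ten2 b (lo g) (hi g) g := by
  have h4' := hhi g
  rw [abs_le, abs_le] at h4'
  have hg := g.2
  have eβ : b.β = cx - w - (2 * q + 1) := by rw [hb]; rfl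
  refine ⟨rfl, le_rfl, ?_⟩
  by_cases h : 2 ≤ |(hi g).2 - (lo g).2|
  · left
    refine ⟨h, ?_⟩
    rw [eβ]; push_cast; omega
  · right
    exact ⟨h, hd.resolve_left h⟩

end

theorem caseS {V : Type} {H : SimpleGraph V} {L q r n M : ℕ} (S : ArcSystem V H L)
    (Q : SimpleGraph (ℤ × ℤ)) (hQ : GridIn Q n)
    (hq : 1 ≤ q) (hL : L ≤ q * q)
    (hM : 24 * (2 * q + 2) + 1 ≤ M) {W D X₀ : ℤ} (hW : r + 4 * q + 2 ≤ W) (hD : 2 * W + 2 ≤ D)
    (hX₀ : W + 2 * L + 4 < X₀) (hn : X₀ + D * M + W + 2 * L + 4 < n)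
    (U : Finset (Fin M × Fin M)) (hU : M * M ≤ 3 * U.card + 1)
    (x y : Fin M × Fin M → ℤ × ℤ) (hadj : ∀ i ∈ U, Q.Adj (x i) (y i))
    (hx : ∀ i ∈ U, |(x i).1 - (X₀ + D * (i.1 : ℕ))| < r ∧ |(x i).2 - (X₀ + D * (i.2 : ℕ))| < r)
    (hy : ∀ i ∈ U, |(y i).1 - (X₀ + D * (i.1 : ℕ))| ≤ r + 2 * q ∧
      |(y i).2 - (X₀ + D * (i.2 : ℕ))| ≤ r + 2 * q)
    (hxy : ∀ i ∈ U, 2 ≤ |(x i).1 - (y i).1| ∨ 2 ≤ |(x i).2 - (y i).2|) : HasModel H Q n := by
  classical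
  have hD0 : 0 ≤ D := by omega
  -- lo and hi
  have hex : ∀ i ∈ U, ∃ lo hi : ℤ × ℤ, Q.Adj lo hi ∧
      (|lo.1 - (X₀ + D * (i.1 : ℕ))| ≤ (r + 2 * q : ℕ) ∧
        |lo.2 - (X₀ + D * (i.2 : ℕ))| ≤ (r + 2 * q : ℕ)) ∧
      (|hi.1 - (X₀ + D * (i.1 : ℕ))| ≤ (r + 2 * q : ℕ) ∧
        |hi.2 - (X₀ + D * (i.2 : ℕ))| ≤ (r + 2 * q : ℕ)) ∧
      (2 ≤ |hi.2 - lo.2| ∨ lo.1 + 2 ≤ hi.1) := by
    intro i hi
    have h1 := hadj i hi
    have h2 := hx i hi
    have h3 := hy i hi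
    have h4 := hxy i hi
    push_cast
    by_cases h5 : 2 ≤ |(x i).2 - (y i).2|
    · refine ⟨x i, y i, h1, ?_, h3, Or.inl ?_⟩
      · constructor
        · have := h2.1; omega
        · have := h2.2; omega
      · rw [abs_sub_comm]; exact h5
    · have h6 := h4.resolve_right h5
      rw [le_abs] at h6
      rcases h6 with h6 | h6
      · refine ⟨y i, x i, h1.symm, h3, ?_, Or.inr (by omega)⟩
        constructor
        · have := h2.1; omega
        · have := h2.2; omega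
      · refine ⟨x i, y i, h1, ?_, h3, Or.inr (by omega)⟩
        constructor
        · have := h2.1; omega
        · have := h2.2; omega
  choose! lo hi hlh hlo hhi hd using hex
  -- selection
  have hMpos : 0 < M := by omega
  have hcard : q * M + M * q ≤ U.card := by
    have h1 : 3 * (q * M + M * q) ≤ 3 * U.card := by
      have h2 : 48 * q + 49 ≤ M := by omega
      nlinarith
    omega
  obtain ⟨ac, F, hF1, hF2⟩ := select_rich U hMpos hcard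
  have hbl : ∀ j, ∃ blk : Fin q → Fin M, Function.Injective blk ∧ ∀ g, blk g ∈ F j := by
    intro j
    obtain ⟨F', hF', hF'c⟩ := Finset.exists_subset_card_eq (hF1 j)
    refine ⟨fun g => F'.orderEmbOfFin hF'c g, (F'.orderEmbOfFin hF'c).injective, fun g => ?_⟩
    exact hF' (Finset.orderEmbOfFin_mem F' hF'c g)
  choose blk hinj hmem using hbl
  have hc0 : ∀ k : Fin M, X₀ ≤ X₀ + D * (k : ℕ) := fun k => by
    have := ctr_nonneg hD0 k; omega
  have hc1 : ∀ k : Fin M, X₀ + D * (k : ℕ) + D ≤ X₀ + D * M := fun k => by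
    have := ctr_le hD0 k; omega
  have hUm : ∀ j g, (ac j, blk j g) ∈ U := fun j g => hF2 j _ (hmem j g)
  have hDM : 0 ≤ D * (M : ℤ) := by positivity
  have hyy : X₀ - W - 1 < X₀ + D * M := by omega
  have pcy : ∀ j (g g' : Fin q), g ≠ g' →
      X₀ + D * (blk j g : ℕ) + 2 * (((r + 2 * q : ℕ) : ℤ) + 2 * q + 2) < X₀ + D * (blk j g' : ℕ) ∨
      X₀ + D * (blk j g' : ℕ) + 2 * (((r + 2 * q : ℕ) : ℤ) + 2 * q + 2) <
        X₀ + D * (blk j g : ℕ) := by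
    intro j g g' hg
    have h1 : blk j g ≠ blk j g' := fun h => hg (hinj j h)
    push_cast
    rcases lt_or_gt_of_ne h1 with h | h
    · left; have := ctr_lt hD0 h; omega
    · right; have := ctr_lt hD0 h; omega
  have pB : ∀ j (g : Fin q),
      X₀ - W - 1 < X₀ + D * (blk j g : ℕ) - (((r + 2 * q : ℕ) : ℤ) + 2 * q + 2) := by
    intro j g
    have := hc0 (blk j g)
    push_cast
    omega
  have pT : ∀ j (g : Fin q),
      X₀ + D * (blk j g : ℕ) + (((r + 2 * q : ℕ) : ℤ) + 2 * q + 2) < X₀ + D * M := by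
    intro j g
    have := hc1 (blk j g)
    push_cast
    omega
  obtain ⟨b, hb⟩ : ∃ b : Fin q → Bundle q, ∀ j, b j = bundleS q (r + 2 * q)
      (X₀ + D * (ac j : ℕ)) (X₀ - W - 1) (X₀ + D * M) hyy
      (fun g => X₀ + D * (blk j g : ℕ)) (fun g => lo (ac j, blk j g))
      (fun g => hi (ac j, blk j g)) (fun g => hlo _ (hUm j g)) (fun g => hhi _ (hUm j g))
      (pcy j) (pB j) (pT j) := ⟨_, fun _ => rfl⟩
  have hbyB : ∀ j, (b j).yB = X₀ - W - 1 := fun j => by rw [hb j]; rfl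
  have hbyT : ∀ j, (b j).yT = X₀ + D * M := fun j => by rw [hb j]; rfl
  have hbT : ∀ j, (b j).T = 2 * q + 1 := fun j => by rw [hb j]; rfl
  have hbβ : ∀ j, (b j).β = X₀ + D * (ac j : ℕ) - ((r + 2 * q : ℕ) : ℤ) - (2 * q + 1) :=
    fun j => by rw [hb j]; rfl
  have hbΘ : ∀ j, (b j).Θ = X₀ + D * (ac j : ℕ) + (((r + 2 * q : ℕ) : ℤ) + 2 * q + 2) :=
    fun j => by rw [hb j]; rfl
  have hbσ : ∀ j g, (b j).σ g = 2 * (g : ℕ) := fun j g => by rw [hb j]; rfl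
  have hbuv : ∀ j g, (((b j).v g, (b j).u g) : ℤ × ℤ) = lo (ac j, blk j g) :=
    fun j g => by rw [hb j]; rfl
  obtain ⟨a, hab, hayB, hayT⟩ : ∃ a : Arr q q L n, a.b = b ∧ a.yB = X₀ - W - 1 ∧
      a.yT = X₀ + D * M := by
    refine ⟨{ b := b, yB := X₀ - W - 1, yT := X₀ + D * M, xL := X₀ - W, xR := X₀ + D * M,
              hq := hq, hL := hL, hyB := hbyB, hyT := hbyT, hyy := hyy, hT := hbT,
              hsep := ?_, hxL := ?_, hxR := ?_, box1 := by omega, box2 := by omega,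
              box3 := by omega, box4 := by omega }, rfl, rfl, rfl⟩
    · intro j j' h
      have := ctr_lt hD0 (ac.strictMono h)
      rw [hbβ, hbΘ]
      push_cast
      omega
    · intro j
      have := hc0 (ac j)
      rw [hbβ]
      push_cast
      omega
    · intro j
      have := hc1 (ac j)
      rw [hbΘ]
      push_cast
      omega
  rw [← hab] at hb hbσ hbuv
  clear hbyB hbyT hbT hbβ hbΘ
  have haσ := hbσ
  have hauv := hbuv
  set T2 : Fin q → Fin q → Set (ℤ × ℤ) := fun j g =>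
    Ten2 (a.b j) (lo (ac j, blk j g)) (hi (ac j, blk j g)) g with hT2
  set E : Set (ℤ × ℤ) := {z | ∃ j g, z ∈ (a.b j).Ten g ∨ z ∈ T2 j g} with hE
  have h2r : ∀ j g z, z ∈ T2 j g → (a.b j).A g ≤ z.2 ∧ z.2 ≤ (a.b j).B g ∧
      (a.b j).β + (2 * (g : ℕ) + 2 : ℕ) ≤ z.1 ∧ z.1 ≤ (a.b j).Θ := by
    intro j g z hz
    exact ten2_range (a.b j) (hb j) g hz
  have h2j : ∀ j g z, z ∈ T2 j g → ∃ z' ∈ (a.b j).Tr (2 * (g : ℕ) + 2),
      Join zgrid (T2 j g) z z' := by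
    intro j g z hz
    exact ten2_join (a.b j) (hb j) g hz
  have h2m : ∀ j g, hi (ac j, blk j g) ∈ T2 j g := by
    intro j g
    exact hi_mem (a.b j) (hb j) g (hd _ (hUm j g))
  have hEr : ∀ j z, (∃ g, z ∈ (a.b j).Ten g ∨ z ∈ T2 j g) →
      (a.b j).β ≤ z.1 ∧ z.1 ≤ (a.b j).Θ ∧ a.yB ≤ z.2 ∧ z.2 ≤ a.yT := by
    rintro j z ⟨g, hz | hz⟩
    · obtain ⟨h1, h2, h3, h4⟩ := (a.b j).ten_range g hz
      rw [a.hyB] at h1
      rw [a.hyT] at h2
      exact ⟨h3, h4, h1.le, h2.le⟩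
    · obtain ⟨h1, h2, h3, h4⟩ := h2r j g z hz
      have h5 := (a.b j).hA g
      have h6 := (a.b j).hB g
      rw [a.hyB] at h5
      rw [a.hyT] at h6
      push_cast at h3
      refine ⟨by omega, h4, by omega, by omega⟩
  have hE1 : ∀ z ∈ E, a.yB ≤ z.2 ∧ z.2 ≤ a.yT ∧ InR n z := by
    rintro z ⟨j, g, hz⟩
    obtain ⟨h1, h2, h3, h4⟩ := hEr j z ⟨g, hz⟩
    have h5 := a.hxL j
    have h6 := a.hxR j
    exact ⟨h3, h4, a.inR_strip (by omega) (by omega) (by omega) (by omega)⟩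
  have hE2 : ∀ z ∈ E, ∀ j, ∀ s < q, z ∉ (a.b j).Tr (2 * s + 1) := by
    rintro z ⟨j, g, hz⟩ j' s hs hz'
    by_cases e : j = j'
    · subst e
      rcases hz with hz | hz
      · exact (a.b j).ten_disj (by rw [haσ]; omega) (by rw [a.hT]; omega) hz hz'
      · exact ten2_disj (a.b j) (hb j) g (by omega) (by omega) hz
          (Or.inr trivial) hz'
    · obtain ⟨h3, h4, -⟩ := hEr j z ⟨g, hz⟩
      obtain ⟨-, -, h5, h6⟩ := a.tr_rg j' (by omega) hz'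
      rcases lt_or_gt_of_ne e with h | h
      · have := a.hsep _ _ h; omega
      · have := a.hsep _ _ h; omega
  refine a.model S Q hQ E hE1 hE2 ?_
  have hZin := a.Z_in hE1
  -- one hop
  have hhop : ∀ j (g : Fin q), Join Q (a.Z E) ((a.b j).β + (2 * (g : ℕ) : ℕ), a.yB)
      ((a.b j).β + (2 * ((g : ℕ) + 1) : ℕ), a.yB) := by
    intro j g
    have h1 := a.ten_path hQ hE1 j g g (haσ j g) (fun z hz => ⟨j, g, Or.inl hz⟩)
    rw [hauv] at h1
    have hloE : lo (ac j, blk j g) ∈ a.Z E := by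
      apply a.E_sub
      rw [← hauv]
      refine ⟨j, g, Or.inl ⟨rfl, ?_, le_rfl⟩⟩
      obtain ⟨-, -, h3, -⟩ := (a.b j).huv g
      have h4 : ((a.b j).σ g : ℤ) < (a.b j).T := by exact_mod_cast (a.b j).hσ g
      simp only
      omega
    have hhiE : hi (ac j, blk j g) ∈ a.Z E := a.E_sub ⟨j, g, Or.inr (h2m j g)⟩
    have h2 := Join.single (hlh _ (hUm j g)) hloE hhiE
    obtain ⟨z', hz', h3⟩ := h2j j g _ (h2m j g)
    have hg := g.2
    have h4 := (a.b j).tr_join (τ := 2 * (g : ℕ) + 2) (by rw [a.hT]; omega) hz'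
    rw [a.hyB] at h4
    have h5 : Join zgrid (a.Z E) (hi (ac j, blk j g)) z' :=
      h3.mono (fun x hx => a.E_sub ⟨j, g, Or.inr hx⟩)
    have h6 : Join zgrid (a.Z E) z' ((a.b j).β + (2 * (g : ℕ) + 2 : ℕ), a.yB) :=
      h4.mono (fun x hx => a.Ev_sub ⟨j, (g : ℕ) + 1, by omega, hx⟩)
    exact (h1.trans h2).trans (Arr.join_lift hQ hZin (h5.trans h6))
  have hchain : ∀ j (s : ℕ), s ≤ q → Join Q (a.Z E) ((a.b j).β + (2 * 0 : ℕ), a.yB)
      ((a.b j).β + (2 * s : ℕ), a.yB) := by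
    intro j s
    induction s with
    | zero => intro _; exact Join.refl _ _
    | succ s ih =>
      intro hs
      exact (ih (by omega)).trans (hhop j ⟨s, by omega⟩)
  refine a.Z_conn hQ hE1 ?_ ?_ ?_
  · intro j
    exact ((a.step_left hQ hE1 j).trans (hchain j q le_rfl)).trans (a.step_right hQ hE1 j)
  · intro j s hs
    exact ⟨_, a.left_gap j, ((a.step_left hQ hE1 j).trans (hchain j s hs)).symm⟩
  · rintro z ⟨j, g, hz | hz⟩
    · refine ⟨((a.b j).β + (a.b j).σ g, (a.b j).u g), ?_, ?_⟩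
      · refine ⟨j, g, by have := g.2; omega, ?_⟩
        have := (a.b j).ten_base g
        rw [haσ] at this ⊢
        exact Or.inl this
      · exact Arr.join_lift hQ hZin
          (((a.b j).ten_join g hz).mono (fun x hx => a.E_sub ⟨j, g, Or.inl hx⟩))
    · obtain ⟨z', hz', h3⟩ := h2j j g _ hz
      refine ⟨z', ⟨j, (g : ℕ) + 1, by have := g.2; omega, hz'⟩, ?_⟩
      exact Arr.join_lift hQ hZin (h3.mono (fun x hx => a.E_sub ⟨j, g, Or.inr hx⟩))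

end Pool.Agent.Lib.MP_69d199_co
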