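import Pool.Agent.Lib.MP_69d199_co.Sharp.T8
import Pool.Agent.Lib.MP_69d199_co.Sharp.T4

/-!
# Assembly: the bound `N(t, r) = O(r √t + t)`
-/

set_option autoImplicit false

namespace Pool.Agent.Lib.MP_69d199_co

lemma zgrid_swap {z z' : ℤ × ℤ} (h : zgrid.Adj z z') : zgrid.Adj z.swap z'.swap := by
  have h' : |z.1 - z'.1| + |z.2 - z'.2| = 1 := h
  show |z.2 - z'.2| + |z.1 - z'.1| = 1
  rw [add_comm]; exact h'

lemma inR_swap {n : ℕ} {z : ℤ × ℤ} (h : InR n z) : InR n z.swap :=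
  ⟨h.2.2.1, h.2.2.2, h.1, h.2.1⟩

lemma Conn.swap {Q : SimpleGraph (ℤ × ℤ)} {T : Set (ℤ × ℤ)} (h : Conn (Q.comap Prod.swap) T) :
    Conn Q {z | z.swap ∈ T} := by
  have key : ∀ x y, Join (Q.comap Prod.swap) T x y → Join Q {z | z.swap ∈ T} x.swap y.swap := by
    intro x y hxy
    induction hxy with
    | refl => exact Join.refl _ _
    | tail _ h ih =>
      refine ih.trans (Join.single h.1 ?_ ?_)
      · show Prod.swap (Prod.swap _) ∈ T
        rw [Prod.swap_swap]; exact h.2.1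
      · show Prod.swap (Prod.swap _) ∈ T
        rw [Prod.swap_swap]; exact h.2.2
  obtain ⟨⟨z, hz⟩, h2⟩ := h
  refine ⟨⟨z.swap, ?_⟩, fun x hx y hy => ?_⟩
  · show Prod.swap (Prod.swap _) ∈ T
    rw [Prod.swap_swap]; exact hz
  · have := key _ _ (h2 x.swap hx y.swap hy)
    rwa [Prod.swap_swap, Prod.swap_swap] at this

lemma HasModel.swap {V : Type} {H : SimpleGraph V} {Q : SimpleGraph (ℤ × ℤ)} {n : ℕ}
    (h : HasModel H (Q.comap Prod.swap) n) : HasModel H Q n := by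
  obtain ⟨Z, X, h1, h2, h3, h4, h5, h6, h7, h8⟩ := h
  refine ⟨{z | z.swap ∈ Z}, fun v => {z | z.swap ∈ X v}, ?_, ?_, h3.swap, fun v => (h4 v).swap,
    ?_, ?_, ?_, ?_⟩
  · intro z hz
    have := inR_swap (h1 _ hz)
    rwa [Prod.swap_swap] at this
  · intro v z hz
    have := inR_swap (h2 v _ hz)
    rwa [Prod.swap_swap] at this
  · intro u v huv
    rw [Set.disjoint_left]
    intro z hz hz'
    exact Set.disjoint_left.1 (h5 u v huv) hz hz'
  · intro v
    rw [Set.disjoint_left]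
    intro z hz hz'
    exact Set.disjoint_left.1 (h6 v) hz hz'
  · intro u v huv
    obtain ⟨x, hx, y, hy, hxy⟩ := h7 u v huv
    exact ⟨x.swap, by simpa using hx, y.swap, by simpa using hy, hxy⟩
  · intro v
    obtain ⟨x, hx, y, hy, hxy⟩ := h8 v
    exact ⟨x.swap, by simpa using hx, y.swap, by simpa using hy, hxy⟩

/-- every graph of radius at most `r` containing a large grid as a spanning subgraph has a model
of `H` with a dominating vertex -/
theorem model_of_radius {V : Type} {H : SimpleGraph V} {L q r n : ℕ} (S : ArcSystem V H L)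
    (Q : SimpleGraph (ℤ × ℤ)) (hQ : GridIn Q n)
    (hQr : ∀ z z', Q.Adj z z' → InR n z ∧ InR n z')
    (hrad : ∃ z₀, InR n z₀ ∧ ∀ z, InR n z → ∃ w : Q.Walk z z₀, w.length ≤ r)
    (hq : 1 ≤ q) (hL : L ≤ q * q)
    (hn : 2 * (r + 4 * q + 2) + 4 * L + 9 + (2 * r + 8 * q + 6) * (48 * q + 49) < n) :
    HasModel H Q n := by
  classical
  obtain ⟨z₀, -, hz₀⟩ := hrad
  obtain ⟨M, hM⟩ : ∃ M, M = 48 * q + 49 := ⟨_, rfl⟩
  obtain ⟨W, hW⟩ : ∃ W : ℤ, W = r + 4 * q + 2 := ⟨_, rfl⟩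
  obtain ⟨D, hD⟩ : ∃ D : ℤ, D = 2 * W + 2 := ⟨_, rfl⟩
  obtain ⟨X₀, hX₀⟩ : ∃ X₀ : ℤ, X₀ = W + 2 * L + 5 := ⟨_, rfl⟩
  have hn' : X₀ + D * M + W + 2 * L + 4 < n := by
    have h1 : (2 * (r + 4 * q + 2) + 4 * L + 9 + (2 * r + 8 * q + 6) * (48 * q + 49) : ℤ) < n := by
      exact_mod_cast hn
    have h2 : D * M = (2 * r + 8 * q + 6) * (48 * q + 49) := by
      rw [hD, hW, hM]; push_cast; ring
    rw [h2, hX₀, hW]
    linarith
  have hD0 : 0 ≤ D := by omega
  have hM24 : 24 * (2 * q + 2) + 1 ≤ M := by omega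
  have hWr : r + 4 * q + 2 ≤ W := hW.ge
  have hDW : 2 * W + 2 ≤ D := hD.ge
  have hXW : W + 2 * L + 4 < X₀ := by omega
  -- the centres
  set c : Fin M × Fin M → ℤ × ℤ := fun i => (X₀ + D * (i.1 : ℕ), X₀ + D * (i.2 : ℕ)) with hc
  have hcin : ∀ i, InR n (c i) := by
    intro i
    have h1 := ctr_nonneg hD0 i.1
    have h2 := ctr_nonneg hD0 i.2
    have h3 := ctr_le hD0 i.1
    have h4 := ctr_le hD0 i.2
    refine ⟨?_, ?_, ?_, ?_⟩ <;> simp only [hc] <;> omega
  set Bad : Finset (Fin M × Fin M) := Finset.univ.filter (fun i =>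
    |(c i).1 - z₀.1| ≤ r ∧ |(c i).2 - z₀.2| ≤ r) with hBad
  have hBadc : Bad.card ≤ 1 := by
    rw [Finset.card_le_one]
    intro i hi j hj
    rw [hBad, Finset.mem_filter] at hi hj
    obtain ⟨-, hi1, hi2⟩ := hi
    obtain ⟨-, hj1, hj2⟩ := hj
    rw [abs_le] at hi1 hi2 hj1 hj2
    simp only [hc] at hi1 hi2 hj1 hj2
    apply Prod.ext
    · rcases lt_trichotomy i.1 j.1 with h | h | h
      · have := ctr_lt hD0 h; omega
      · exact h
      · have := ctr_lt hD0 h; omega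
    · rcases lt_trichotomy i.2 j.2 with h | h | h
      · have := ctr_lt hD0 h; omega
      · exact h
      · have := ctr_lt hD0 h; omega
  -- the jumps
  have hjump : ∀ i, i ∉ Bad → ∃ x y, Q.Adj x y ∧ |x.1 - (c i).1| < r ∧ |x.2 - (c i).2| < r ∧
      (2 ≤ |x.1 - y.1| ∨ 2 ≤ |x.2 - y.2|) := by
    intro i hi
    obtain ⟨w, hw⟩ := hz₀ _ (hcin i)
    apply exists_jump Q r (c i) z₀ w hw
    rw [hBad, Finset.mem_filter] at hi
    push Not at hi
    by_cases h : (r : ℤ) < |(c i).1 - z₀.1|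
    · exact Or.inl h
    · exact Or.inr (hi (Finset.mem_univ _) (not_lt.1 h))
  choose! x y hxy hx1 hx2 hfar using hjump
  -- the three types
  set UA := Finset.univ.filter (fun i => i ∉ Bad ∧ (r : ℤ) + 2 * q < |(y i).1 - (c i).1|) with hUA
  set UB := Finset.univ.filter (fun i => i ∉ Bad ∧ (r : ℤ) + 2 * q < |(y i).2 - (c i).2|) with hUB
  set UC := Finset.univ.filter (fun i => i ∉ Bad ∧ |(y i).1 - (c i).1| ≤ (r : ℤ) + 2 * q ∧
    |(y i).2 - (c i).2| ≤ (r : ℤ) + 2 * q) with hUC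
  have hcover : (Finset.univ : Finset (Fin M × Fin M)) ⊆ Bad ∪ (UA ∪ (UB ∪ UC)) := by
    intro i hi
    rw [Finset.mem_union, Finset.mem_union, Finset.mem_union]
    by_cases h1 : i ∈ Bad
    · exact Or.inl h1
    · right
      by_cases h2 : (r : ℤ) + 2 * q < |(y i).1 - (c i).1|
      · left; rw [hUA, Finset.mem_filter]; exact ⟨hi, h1, h2⟩
      · right
        by_cases h3 : (r : ℤ) + 2 * q < |(y i).2 - (c i).2|
        · left; rw [hUB, Finset.mem_filter]; exact ⟨hi, h1, h3⟩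
        · right; rw [hUC, Finset.mem_filter]; exact ⟨hi, h1, not_lt.1 h2, not_lt.1 h3⟩
  have hcard : M * M ≤ 1 + (UA.card + (UB.card + UC.card)) := by
    have h1 := Finset.card_le_card hcover
    rw [Finset.card_univ, Fintype.card_prod, Fintype.card_fin] at h1
    have h2 := Finset.card_union_le Bad (UA ∪ (UB ∪ UC))
    have h3 := Finset.card_union_le UA (UB ∪ UC)
    have h4 := Finset.card_union_le UB UC
    omega
  have hthree : M * M ≤ 3 * UA.card + 1 ∨ M * M ≤ 3 * UB.card + 1 ∨ M * M ≤ 3 * UC.card + 1 := by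
    omega
  rcases hthree with h | h | h
  · -- type A
    refine caseV (r := r) S Q hQ hQr hq hL hM24 hWr hDW hXW hn' UA h x y ?_ ?_ ?_
    · intro i hi
      rw [hUA, Finset.mem_filter] at hi
      exact hxy i hi.2.1
    · intro i hi
      rw [hUA, Finset.mem_filter] at hi
      exact ⟨hx1 i hi.2.1, hx2 i hi.2.1⟩
    · intro i hi
      rw [hUA, Finset.mem_filter] at hi
      exact hi.2.2
  · -- type B: transpose
    apply HasModel.swap
    refine caseV (r := r) S (Q.comap Prod.swap) ?_ ?_ hq hL hM24 hWr hDW hXW hn'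
      (UB.map ⟨Prod.swap, Prod.swap_injective⟩) (by rw [Finset.card_map]; exact h)
      (fun i => (x i.swap).swap) (fun i => (y i.swap).swap) ?_ ?_ ?_
    · intro z z' h1 h2 h3
      exact hQ _ _ (inR_swap h1) (inR_swap h2) (zgrid_swap h3)
    · intro z z' h1
      have h2 := hQr _ _ (show Q.Adj z.swap z'.swap from h1)
      have h3 := inR_swap h2.1
      have h4 := inR_swap h2.2
      rw [Prod.swap_swap] at h3 h4
      exact ⟨h3, h4⟩
    · intro i hi
      rw [Finset.mem_map] at hi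
      obtain ⟨i', hi', rfl⟩ := hi
      rw [hUB, Finset.mem_filter] at hi'
      show Q.Adj (Prod.swap (Prod.swap _)) (Prod.swap (Prod.swap _))
      rw [Prod.swap_swap, Prod.swap_swap]
      exact hxy _ hi'.2.1
    · intro i hi
      rw [Finset.mem_map] at hi
      obtain ⟨i', hi', rfl⟩ := hi
      rw [hUB, Finset.mem_filter] at hi'
      exact ⟨hx2 i' hi'.2.1, hx1 i' hi'.2.1⟩
    · intro i hi
      rw [Finset.mem_map] at hi
      obtain ⟨i', hi', rfl⟩ := hi
      rw [hUB, Finset.mem_filter] at hi'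
      exact hi'.2.2
  · -- type C
    refine caseS (r := r) S Q hQ hq hL hM24 hWr hDW hXW hn' UC h x y ?_ ?_ ?_ ?_
    · intro i hi
      rw [hUC, Finset.mem_filter] at hi
      exact hxy i hi.2.1
    · intro i hi
      rw [hUC, Finset.mem_filter] at hi
      exact ⟨hx1 i hi.2.1, hx2 i hi.2.1⟩
    · intro i hi
      rw [hUC, Finset.mem_filter] at hi
      exact ⟨hi.2.2.1, hi.2.2.2⟩
    · intro i hi
      rw [hUC, Finset.mem_filter] at hi
      exact hfar i hi.2.1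

/-- the explicit bound -/
theorem isMinor_of_grid {V W : Type} [Fintype V] [Fintype W] (A : SimpleGraph V) (z : V)
    (G : SimpleGraph W) (r n q : ℕ) (hA : IsApexAt A z) (hG : RadiusAtMost G r)
    (hgrid : IsMinor (grid n) G) (hq : 1 ≤ q) (hqt : 2 * Fintype.card V ≤ q * q)
    (hn : 2 * (r + 4 * q + 2) + 8 * Fintype.card V + 9 +
      (2 * r + 8 * q + 6) * (48 * q + 49) < n) :
    IsMinor A G := by
  classical
  obtain ⟨Q, hQ, hQr, hrad, hQA⟩ := exists_contraction G r n (by omega) hG hgrid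
  obtain ⟨L, hL, ⟨S⟩⟩ := exists_arcSystem _ hA
  have hcard : Fintype.card {v : V | v ≠ z} ≤ Fintype.card V := Fintype.card_subtype_le _
  apply hQA V A z
  exact model_of_radius S Q hQ hQr hrad hq (by omega) (by omega)

theorem isMinor_of_sqrt {V W : Type} [Fintype V] [Fintype W] (A : SimpleGraph V)
    (G : SimpleGraph W) (r n : ℕ) (hA : IsApex A) (hG : RadiusAtMost G r)
    (hgrid : IsMinor (grid n) G)
    (hn : 4500 * (r * Real.sqrt (Fintype.card V) + Fintype.card V) < n) :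
    IsMinor A G := by
  obtain ⟨z, hz⟩ := hA
  obtain ⟨t, ht⟩ : ∃ t, t = Fintype.card V := ⟨_, rfl⟩
  have ht1 : 1 ≤ t := by rw [ht]; exact Fintype.card_pos_iff.2 ⟨z⟩
  obtain ⟨s, hs⟩ : ∃ s : ℝ, s = Real.sqrt t := ⟨_, rfl⟩
  have hs1 : 1 ≤ s := by
    rw [hs]
    rw [Real.one_le_sqrt]
    exact_mod_cast ht1
  have hss : s * s = t := by rw [hs]; exact Real.mul_self_sqrt (by positivity)
  obtain ⟨q, hq⟩ : ∃ q, q = Nat.sqrt (2 * t) + 1 := ⟨_, rfl⟩
  have hq1 : 1 ≤ q := by omega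
  have hqt : 2 * t ≤ q * q := by
    rw [hq]
    exact (Nat.lt_succ_sqrt (2 * t)).le
  have hqs : (q : ℝ) ≤ 2.5 * s := by
    have h1 : ((Nat.sqrt (2 * t) : ℕ) : ℝ) ≤ 1.5 * s := by
      have h2 : (Nat.sqrt (2 * t)) * (Nat.sqrt (2 * t)) ≤ 2 * t := Nat.sqrt_le _
      have h3 : ((Nat.sqrt (2 * t) : ℕ) : ℝ) * (Nat.sqrt (2 * t) : ℕ) ≤ 2 * (s * s) := by
        rw [hss]; exact_mod_cast h2
      by_contra hcon
      push Not at hcon
      nlinarith
    rw [hq]; push_cast; linarith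
  refine isMinor_of_grid A z G r n q hz hG hgrid hq1 (by rw [← ht]; exact hqt) ?_
  rw [← ht] at hn ⊢
  rw [← hs, ← hss] at hn
  have hr0 : (0 : ℝ) ≤ r := by positivity
  have hq0 : (0 : ℝ) ≤ q := by positivity
  have hkey : (2 * (r + 4 * q + 2) + 8 * t + 9 + (2 * r + 8 * q + 6) * (48 * q + 49) : ℝ) ≤
      4500 * (r * s + s * s) := by
    rw [← hss]
    have a1 : (48 * q + 49 : ℝ) ≤ 169 * s := by linarith
    have a2 : (2 * r + 8 * q + 6 : ℝ) ≤ 2 * r + 26 * s := by linarith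
    have a3 : (2 * r + 8 * q + 6 : ℝ) * (48 * q + 49) ≤ (2 * r + 26 * s) * (169 * s) := by
      apply mul_le_mul a2 a1 (by positivity) (by positivity)
    nlinarith [mul_nonneg hr0 (by linarith : (0 : ℝ) ≤ s - 1)]
  have : ((2 * (r + 4 * q + 2) + 8 * t + 9 + (2 * r + 8 * q + 6) * (48 * q + 49) : ℕ) : ℝ) < n := by
    push_cast
    linarith
  exact_mod_cast this

theorem gridSizes_le (t r n : ℕ) (hn : n ∈ gridSizes t r) :
    (n : ℝ) ≤ 4500 * (r * Real.sqrt t + t) := by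
  obtain ⟨V, W, _, _, A, G, hV, hA, hr, hnot, hg⟩ := hn
  by_contra hcon
  push Not at hcon
  apply hnot
  apply isMinor_of_sqrt A G r n hA hr hg
  rw [hV]; exact hcon

end Pool.Agent.Lib.MP_69d199_co
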